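import Mathlib
import Pool.Agent.W24.Gap
import Pool.Agent.H425R3.MM.K11

/-!
# Averages of products of almost periodic polynomials, with a power saving
-/

open Filter Topology Finset
open Pool.Agent.H383.AP Pool.Agent.H383.Gen
open Pool.Agent.W24.Riesz (nz norm_chr_one_sub)

namespace Pool.Agent.Y938.Pm

lemma cm_chr_gap {θ δ : ℝ} (hδ : 0 < δ) (h : (∃ k : ℤ, θ = k) ∨ δ ≤ nz θ) {N : ℕ} (hN : 0 < N) :
    ‖cm (chr θ) N - mc θ‖ ≤ 1 / (2 * δ * N) := by
  have hN' : (0:ℝ) < N := by exact_mod_cast hN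
  rcases h with h | h
  · have h2 : mc θ = 1 := (chr_mean θ).unique (chr_mean_int h)
    have h1 : cm (chr θ) N = 1 := by
      obtain ⟨k, rfl⟩ := h
      have h2 : ∀ n, chr (k:ℝ) n = 1 := by
        intro n
        simp only [chr]
        rw [Complex.exp_eq_one_iff]
        refine ⟨n * k, ?_⟩
        push_cast; ring
      unfold cm
      rw [Finset.sum_congr rfl (fun n _ => h2 n)]
      have hN'' : (N:ℂ) ≠ 0 := by exact_mod_cast hN.ne'
      simp only [Finset.sum_const, Finset.card_range, nsmul_eq_mul, mul_one]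
      exact div_self hN''
    rw [h1, h2, sub_self, norm_zero]
    positivity
  · have hne : ¬ ∃ k : ℤ, θ = k := by
      rintro ⟨k, rfl⟩
      have : nz (k:ℝ) = 0 := by unfold nz; simp
      rw [this] at h; linarith
    have h2 : mc θ = 0 := (chr_mean θ).unique (chr_mean_non hne)
    rw [h2, sub_zero]
    have hz := norm_chr_one_sub θ
    have hz0 : 0 < ‖chr θ 1 - 1‖ := by linarith
    have hz1 : chr θ 1 ≠ 1 := by
      intro h1
      rw [h1, sub_self, norm_zero] at hz0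
      exact lt_irrefl _ hz0
    have hpow : ∀ n : ℕ, chr θ n = (chr θ 1) ^ n := by
      intro n
      simp only [chr]
      rw [← Complex.exp_nat_mul]
      congr 1
      push_cast; ring
    have e : ∑ n ∈ Finset.range N, chr θ n = ((chr θ 1)^N - 1)/(chr θ 1 - 1) := by
      rw [← geom_sum_eq hz1]
      exact Finset.sum_congr rfl (fun n _ => hpow n)
    unfold cm
    rw [e, norm_div, norm_div, Complex.norm_natCast]
    have h1 : ‖(chr θ 1)^N - 1‖ ≤ 2 := by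
      refine (norm_sub_le _ _).trans ?_
      rw [← hpow, norm_chr]; norm_num
    calc ‖(chr θ 1)^N - 1‖ / ‖chr θ 1 - 1‖ / N ≤ 2 / (4 * δ) / N := by
          gcongr
          linarith
      _ = _ := by field_simp; norm_num

lemma cm_sum {β : Type*} (s : Finset β) (g : β → ℕ → ℂ) (N : ℕ) : cm (∑ i ∈ s, g i) N = ∑ i ∈ s, cm (g i) N := by
  unfold cm
  rw [← Finset.sum_div, Finset.sum_comm]
  simp only [Finset.sum_apply]

lemma chr_sum {k : ℕ} (θ : Fin k → ℝ) (n : ℕ) : ∏ j, chr (θ j) n = chr (∑ j, θ j) n := by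
  simp only [chr]
  rw [← Complex.exp_sum]
  congr 1
  rw [← Finset.sum_mul]
  congr 1
  push_cast
  rw [Finset.mul_sum, Finset.mul_sum]

lemma prod_sum_chr {k : ℕ} {β : Type*} [DecidableEq β] (I : Finset β) (c : Fin k → β → ℂ) (θ : Fin k → β → ℝ) :
    (∏ j, ∑ i ∈ I, c j i • chr (θ j i)) =
      ∑ f ∈ Fintype.piFinset (fun _ : Fin k => I), (∏ j, c j (f j)) • chr (∑ j, θ j (f j)) := by
  funext n
  simp only [Finset.prod_apply, Finset.sum_apply, Pi.smul_apply, smul_eq_mul]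
  rw [Finset.prod_univ_sum]
  apply Finset.sum_congr rfl
  intro f _
  rw [Finset.prod_mul_distrib, chr_sum]

/-- averages of products of trigonometric polynomials -/
theorem prod_avg {k : ℕ} {β : Type*} [DecidableEq β] (I : Finset β) (c : Fin k → β → ℂ) (θ : Fin k → β → ℝ) {δ W : ℝ}
    (hδ : 0 < δ) (hgap : ∀ f ∈ Fintype.piFinset (fun _ : Fin k => I),
      (∃ l : ℤ, ∑ j, θ j (f j) = l) ∨ δ ≤ nz (∑ j, θ j (f j)))
    (hW : ∀ j, ∑ i ∈ I, ‖c j i‖ ≤ W) :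
    ∃ L : ℂ, ∀ N : ℕ, 0 < N → ‖cm (∏ j, ∑ i ∈ I, c j i • chr (θ j i)) N - L‖ ≤ W ^ k / (2 * δ * N) := by
  refine ⟨∑ f ∈ Fintype.piFinset (fun _ : Fin k => I), (∏ j, c j (f j)) * mc (∑ j, θ j (f j)), fun N hN => ?_⟩
  have hN' : (0:ℝ) < N := by exact_mod_cast hN
  rw [prod_sum_chr, cm_sum, ← Finset.sum_sub_distrib]
  have h1 : ∀ f ∈ Fintype.piFinset (fun _ : Fin k => I),
      ‖cm ((∏ j, c j (f j)) • chr (∑ j, θ j (f j))) N - (∏ j, c j (f j)) * mc (∑ j, θ j (f j))‖ ≤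
        (∏ j, ‖c j (f j)‖) * (1 / (2 * δ * N)) := by
    intro f hf
    have e1 : cm ((∏ j, c j (f j)) • chr (∑ j, θ j (f j))) N = (∏ j, c j (f j)) * cm (chr (∑ j, θ j (f j))) N := by
      rw [cm_smul]; rfl
    rw [e1, ← mul_sub, norm_mul, norm_prod]
    exact mul_le_mul_of_nonneg_left (cm_chr_gap hδ (hgap f hf) hN) (Finset.prod_nonneg (fun _ _ => norm_nonneg _))
  refine (norm_sum_le _ _).trans ((Finset.sum_le_sum h1).trans ?_)
  rw [← Finset.sum_mul, ← Finset.prod_univ_sum (fun _ : Fin k => I) (fun j i => ‖c j i‖)]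
  have h2 : ∏ j, ∑ i ∈ I, ‖c j i‖ ≤ W ^ k := by
    calc ∏ j, ∑ i ∈ I, ‖c j i‖ ≤ ∏ j : Fin k, W :=
          Finset.prod_le_prod (fun j _ => Finset.sum_nonneg (fun _ _ => norm_nonneg _)) (fun j _ => hW j)
      _ = W ^ k := by rw [Finset.prod_const, Finset.card_univ, Fintype.card_fin]
  calc (∏ j, ∑ i ∈ I, ‖c j i‖) * (1 / (2 * δ * N)) ≤ W ^ k * (1 / (2 * δ * N)) :=
        mul_le_mul_of_nonneg_right h2 (by positivity)
    _ = _ := by ring

/-- the gap for sums of square roots -/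
theorem gap_mix {k : ℕ} (g : Fin k → ℕ) (hg : ∀ j, 1 ≤ g j) (σ : Fin k → ℤ) (hσ : ∀ j, |(σ j:ℝ)| ≤ 1) {Y : ℝ} (hY0 : 0 ≤ Y)
    (hY : ∀ j, √(g j:ℝ) ≤ Y) :
    (∃ l : ℤ, ∑ j, (σ j:ℝ) * √(g j:ℝ) = l) ∨ 1 / (2 * k * Y + 1) ^ (2 ^ k) ≤ nz (∑ j, (σ j:ℝ) * √(g j:ℝ)) := by
  set θ : ℝ := ∑ j, (σ j:ℝ) * √(g j:ℝ) with hθ
  set l : ℤ := round θ with hl
  by_cases h0 : θ - l = 0
  · left
    exact ⟨l, by linarith⟩
  right
  have hB1 : 1 ≤ 2 * k * Y + 1 := by
    have : 0 ≤ 2 * k * Y := by positivity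
    linarith
  have hs : ∑ j, |(σ j:ℝ)| * √(g j:ℝ) ≤ k * Y := by
    calc ∑ j, |(σ j:ℝ)| * √(g j:ℝ) ≤ ∑ j : Fin k, Y := by
          apply Finset.sum_le_sum
          intro j _
          calc |(σ j:ℝ)| * √(g j:ℝ) ≤ 1 * √(g j:ℝ) := mul_le_mul_of_nonneg_right (hσ j) (Real.sqrt_nonneg _)
            _ ≤ Y := by rw [one_mul]; exact hY j
      _ = k * Y := by rw [Finset.sum_const, Finset.card_univ, Fintype.card_fin, nsmul_eq_mul]
  have hθb : |θ| ≤ k * Y := by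
    refine (Finset.abs_sum_le_sum_abs _ _).trans (le_trans (le_of_eq ?_) hs)
    apply Finset.sum_congr rfl
    intro j _
    rw [abs_mul, abs_of_nonneg (Real.sqrt_nonneg _)]
  have hlb : |(l:ℝ)| ≤ |θ| + 1/2 := by
    have h1 := abs_sub_round θ
    rw [← hl] at h1
    have h2 : |(l:ℝ)| = |θ - (θ - l)| := by congr 1; ring
    rw [h2]
    refine (abs_sub _ _).trans ?_
    linarith
  set nn : Option (Fin k) → ℤ := fun x => match x with
    | none => -l
    | some j => σ j with hnn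
  set ff : Option (Fin k) → Finset (Fin k) := fun x => match x with
    | none => ∅
    | some j => {j} with hff
  have v0 : Pool.Agent.W24.Liou.vv g (ff none) = 1 := by simp [hff, Pool.Agent.W24.Liou.vv]
  have v1 : ∀ j, Pool.Agent.W24.Liou.vv g (ff (some j)) = √(g j:ℝ) := by
    intro j; simp [hff, Pool.Agent.W24.Liou.vv]
  have hsum : ∑ x, ((nn x : ℤ) : ℝ) * Pool.Agent.W24.Liou.vv g (ff x) = θ - l := by
    rw [Fintype.sum_option, v0]
    simp only [v1]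
    have : ((nn none : ℤ) : ℝ) = -(l:ℝ) := by simp [hnn]
    rw [this, mul_one, hθ]
    ring
  have hbd : ∑ x, |((nn x : ℤ) : ℝ)| * Pool.Agent.W24.Liou.vv g (ff x) ≤ 2 * k * Y + 1 := by
    rw [Fintype.sum_option, v0]
    simp only [v1]
    have : |((nn none : ℤ) : ℝ)| = |(l:ℝ)| := by simp [hnn]
    rw [this, mul_one]
    have h3 : ∑ j, |((nn (some j) : ℤ) : ℝ)| * √(g j:ℝ) = ∑ j, |(σ j:ℝ)| * √(g j:ℝ) := rfl
    rw [h3]
    linarith
  have key := Pool.Agent.W24.Ar.liou_family hg nn ff hB1 hbd (by rw [hsum]; exact h0)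
  rw [hsum, Fintype.card_fin] at key
  unfold nz
  rw [← hl, div_le_iff₀ (by positivity)]
  exact key

/-- coefficients of the model polynomial -/
noncomputable def cU (a : ℕ → ℝ) (φ X : ℝ) (i : ℕ × Bool) : ℂ :=
  if i.2 then ac a φ X i.1 / 2 else (starRingEnd ℂ) (ac a φ X i.1) / 2

/-- signs -/
def sU (b : Bool) : ℤ := if b then 1 else -1

lemma U_sum (a : ℕ → ℝ) (φ α X : ℝ) (M : ℕ) : (fun n : ℕ => ((U a φ (X + n * α) M : ℝ) : ℂ)) =
    ∑ i ∈ Icc 1 (M^2) ×ˢ (univ : Finset Bool), cU a φ X i • chr ((sU i.2 : ℝ) * (α * √(i.1:ℝ))) := by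
  rw [U_trig, Finset.sum_product]
  apply Finset.sum_congr rfl
  intro m _
  rw [Fintype.sum_bool]
  simp only [cU, sU]
  norm_num

lemma sum_cU (a : ℕ → ℝ) (φ X : ℝ) (M : ℕ) : ∑ i ∈ Icc 1 (M^2) ×ˢ (univ : Finset Bool), ‖cU a φ X i‖ = ∑ m ∈ Icc 1 (M^2), |a m| := by
  rw [Finset.sum_product]
  apply Finset.sum_congr rfl
  intro m _
  rw [Fintype.sum_bool]
  simp only [cU, if_true, Bool.false_eq_true, if_false]
  rw [norm_div, norm_div, Complex.norm_conj, norm_ac]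
  norm_num

/-- averages of products of the model polynomials -/
theorem mixed_avg {k : ℕ} (a : ℕ → ℝ) (φ : ℝ) (κ : Fin k → ℕ) (hκ : ∀ j, 0 < κ j) (X : Fin k → ℝ) {M : ℕ} {Y W : ℝ}
    (hY0 : 0 ≤ Y) (hY : ∀ j, √(κ j:ℝ) * M ≤ Y) (hW : ∑ m ∈ Icc 1 (M^2), |a m| ≤ W) :
    ∃ L : ℝ, ∀ N : ℕ, 0 < N → |rm (fun n => ∏ j, U a φ (X j + n * √(κ j:ℝ)) M) N - L| ≤
      W ^ k * (2 * k * Y + 1) ^ (2 ^ k) / (2 * N) := by
  have hB1 : 1 ≤ 2 * k * Y + 1 := by
    have : 0 ≤ 2 * k * Y := by positivity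
    linarith
  obtain ⟨L, hL⟩ := prod_avg (k := k) (Icc 1 (M^2) ×ˢ (univ : Finset Bool)) (fun j => cU a φ (X j))
    (fun j i => (sU i.2 : ℝ) * (√(κ j:ℝ) * √(i.1:ℝ))) (δ := 1 / (2 * k * Y + 1) ^ (2 ^ k)) (W := W)
    (by positivity) (by
      intro f hf
      rw [Fintype.mem_piFinset] at hf
      have hf' : ∀ j, 1 ≤ (f j).1 ∧ (f j).1 ≤ M^2 := fun j => by
        have := hf j
        rw [Finset.mem_product, Finset.mem_Icc] at this
        exact this.1
      have e : ∀ j, (sU (f j).2 : ℝ) * (√(κ j:ℝ) * √((f j).1:ℝ)) = (sU (f j).2 : ℝ) * √((κ j * (f j).1 : ℕ):ℝ) := by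
        intro j
        rw [← Real.sqrt_mul (Nat.cast_nonneg _)]; push_cast; rfl
      simp only [e]
      apply gap_mix (fun j => κ j * (f j).1) (fun j => Nat.mul_pos (hκ j) (hf' j).1) (fun j => sU (f j).2) _ hY0
      · intro j
        refine le_trans ?_ (hY j)
        push_cast
        rw [Real.sqrt_mul (Nat.cast_nonneg _)]
        apply mul_le_mul_of_nonneg_left _ (Real.sqrt_nonneg _)
        rw [Real.sqrt_le_left (Nat.cast_nonneg _)]
        exact_mod_cast (hf' j).2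
      · intro j
        unfold sU
        split_ifs <;> norm_num) (fun j => by rw [sum_cU]; exact hW)
  refine ⟨L.re, fun N hN => ?_⟩
  have hN' : (0:ℝ) < N := by exact_mod_cast hN
  have h1 := hL N hN
  have e : (∏ j, ∑ i ∈ Icc 1 (M^2) ×ˢ (univ : Finset Bool), cU a φ (X j) i • chr ((sU i.2 : ℝ) * (√(κ j:ℝ) * √(i.1:ℝ)))) =
      fun n : ℕ => ((∏ j, U a φ (X j + n * √(κ j:ℝ)) M : ℝ) : ℂ) := by
    simp only [← U_sum]
    funext n
    rw [Finset.prod_apply]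
    push_cast
    rfl
  rw [e, cm_ofReal] at h1
  have h2 : |rm (fun n => ∏ j, U a φ (X j + n * √(κ j:ℝ)) M) N - L.re| ≤
      ‖((rm (fun n => ∏ j, U a φ (X j + n * √(κ j:ℝ)) M) N : ℝ) : ℂ) - L‖ := by
    have := Complex.abs_re_le_norm (((rm (fun n => ∏ j, U a φ (X j + n * √(κ j:ℝ)) M) N : ℝ) : ℂ) - L)
    rwa [Complex.sub_re, Complex.ofReal_re] at this
  refine h2.trans (h1.trans (le_of_eq ?_))
  field_simp

end Pool.Agent.Y938.Pm
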