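import Mathlib
import Pool.Agent.Y938.Pm.A

/-!
# Moments of the model polynomials
-/

open Filter Topology Finset
open Pool.Agent.H383.AP Pool.Agent.H383.Gen Pool.Agent.H383.Gauss

namespace Pool.Agent.Y938.Pm

lemma pow_le_exp {x l : ℝ} (hl : 0 < l) (j : ℕ) :
    x ^ (2 * j) ≤ ((2 * j).factorial : ℝ) / l ^ (2 * j) * (Real.exp (l * x) + Real.exp (-l * x)) := by
  have h1 := Real.pow_div_factorial_le_exp (|l * x|) (abs_nonneg _) (2 * j)
  have h2 : Real.exp |l * x| ≤ Real.exp (l * x) + Real.exp (-l * x) := by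
    rcases abs_cases (l * x) with ⟨h, -⟩ | ⟨h, -⟩
    · rw [h]; linarith [Real.exp_pos (-l * x)]
    · rw [h, show -(l * x) = -l * x by ring]; linarith [Real.exp_pos (l * x)]
  have h3 : |l * x| ^ (2 * j) = l ^ (2 * j) * x ^ (2 * j) := by
    rw [← mul_pow, pow_mul, sq_abs, ← pow_mul]
  rw [h3] at h1
  have hf : (0:ℝ) < ((2 * j).factorial : ℝ) := by exact_mod_cast Nat.factorial_pos _
  have hl2 : 0 < l ^ (2 * j) := by positivity
  have h4 := h1.trans h2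
  rw [div_le_iff₀ hf] at h4
  rw [div_mul_eq_mul_div, le_div_iff₀ hl2]
  linarith

/-- all even moments of the model polynomials are bounded, uniformly in the length -/
theorem mom_bound {a : ℕ → ℝ} {φ α X κ : ℝ} {S0 : Finset ℕ} (hS : GoodS α S0)
    (hκ : 1/2 < κ) {C : ℝ} (hC : 0 < C) (ha : ∀ m : ℕ, 1 ≤ m → |a m| ≤ C * (m:ℝ) ^ (-κ))
    {p : ℝ} (hp1 : 1 ≤ p) (hp2 : p ≤ 2) (hp : 1 < κ * p) :
    ∃ B0 D : ℝ, 0 ≤ B0 ∧ 0 ≤ D ∧ ∀ (l : ℝ), 0 < l → ∀ (M j : ℕ) (L : ℝ),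
      Tendsto (rm (fun n => (U a φ (X + n * α) M) ^ (2 * j))) atTop (𝓝 L) →
      L ≤ ((2 * j).factorial : ℝ) / l ^ (2 * j) * (2 * Real.exp (B0 * l + D * l ^ p)) := by
  obtain ⟨B0, D, hB0, hD, h⟩ := mgf_bound (φ := φ) (X := X) hS hκ hC ha hp1 hp2 hp
  refine ⟨B0, D, hB0, hD, fun l hl M j L hL => ?_⟩
  have hexp : ∀ s : ℝ, |s| = l → ∃ G : ℝ, G ≤ Real.exp (B0 * l + D * l ^ p) ∧
      Tendsto (rm (fun n => Real.exp (s * U a φ (X + n * α) M))) atTop (𝓝 G) := by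
    intro s hs
    have h1 := h s M
    rw [hs] at h1
    have h2 : HasMean (ex a φ α X (s:ℂ) (Icc 1 (M^2))) (mn (ex a φ α X (s:ℂ) (Icc 1 (M^2)))) := UC_hasMean (ex_UC_top _)
    refine ⟨(mn (ex a φ α X (s:ℂ) (Icc 1 (M^2)))).re, (Complex.re_le_norm _).trans h1, ?_⟩
    have h3 := (Complex.continuous_re.tendsto _).comp h2
    refine h3.congr (fun N => ?_)
    have h4 : ex a φ α X (s:ℂ) (Icc 1 (M^2)) = fun n : ℕ => ((Real.exp (s * U a φ (X + n * α) M) : ℝ) : ℂ) := by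
      funext n
      unfold ex
      rw [ST_U, ← Complex.ofReal_mul, Complex.ofReal_exp]
    rw [Function.comp_apply, h4, cm_ofReal, Complex.ofReal_re]
  obtain ⟨G1, hG1, h1⟩ := hexp l (abs_of_pos hl)
  obtain ⟨G2, hG2, h2⟩ := hexp (-l) (by rw [abs_neg, abs_of_pos hl])
  have h3 := (h1.add h2).const_mul (((2 * j).factorial : ℝ) / l ^ (2 * j))
  have hf : (0:ℝ) < ((2 * j).factorial : ℝ) / l ^ (2 * j) := by positivity
  have h4 : L ≤ ((2 * j).factorial : ℝ) / l ^ (2 * j) * (G1 + G2) := by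
    refine le_of_tendsto_of_tendsto' hL h3 (fun N => ?_)
    rw [← rm_add]
    have : ((2 * j).factorial : ℝ) / l ^ (2 * j) * rm (fun n => Real.exp (l * U a φ (X + n * α) M) + Real.exp (-l * U a φ (X + n * α) M)) N =
        rm (fun n => ((2 * j).factorial : ℝ) / l ^ (2 * j) * (Real.exp (l * U a φ (X + n * α) M) + Real.exp (-l * U a φ (X + n * α) M))) N := by
      unfold rm
      rw [← Finset.mul_sum, mul_div_assoc]
    rw [this]
    exact rm_mono (fun n => pow_le_exp hl j) N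
  refine h4.trans (mul_le_mul_of_nonneg_left ?_ hf.le)
  linarith

/-- the sum of the coefficients -/
lemma sum_coef {a : ℕ → ℝ} (ha : Bd a) : ∃ C : ℝ, 0 < C ∧ ∀ M : ℕ, ∑ m ∈ Icc 1 (M^2), |a m| ≤ C * (M:ℝ)^2 := by
  obtain ⟨C, hC, h⟩ := ha
  refine ⟨C, hC, fun M => ?_⟩
  calc ∑ m ∈ Icc 1 (M^2), |a m| ≤ ∑ m ∈ Icc 1 (M^2), C := by
        apply Finset.sum_le_sum
        intro m hm
        rw [Finset.mem_Icc] at hm
        refine (h m hm.1).trans ?_
        have h1 : (1:ℝ) ≤ √(m:ℝ) := by rw [Real.one_le_sqrt]; exact_mod_cast hm.1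
        have h2 : (√(m:ℝ)) ^ (-(37/25):ℝ) ≤ 1 := Real.rpow_le_one_of_one_le_of_nonpos h1 (by norm_num)
        nlinarith
    _ = C * (M:ℝ)^2 := by
        rw [Finset.sum_const, Nat.card_Icc, nsmul_eq_mul]
        push_cast
        ring_nf

/-- difference of two products -/
lemma prod_diff {β : Type*} [DecidableEq β] (s : Finset β) (e u : β → ℝ) {S : ℝ} (hS : 0 ≤ S) (he : ∀ j ∈ s, |e j| ≤ S)
    (hu : ∀ j ∈ s, |u j| ≤ S) : S * |∏ j ∈ s, e j - ∏ j ∈ s, u j| ≤ (∑ j ∈ s, |e j - u j|) * S ^ s.card := by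
  induction s using Finset.induction_on with
  | empty => simp
  | insert a s ha ih =>
    have ih' := ih (fun j hj => he j (Finset.mem_insert_of_mem hj)) (fun j hj => hu j (Finset.mem_insert_of_mem hj))
    rw [Finset.prod_insert ha, Finset.prod_insert ha, Finset.sum_insert ha, Finset.card_insert_of_notMem ha]
    have h1 : e a * ∏ j ∈ s, e j - u a * ∏ j ∈ s, u j = e a * (∏ j ∈ s, e j - ∏ j ∈ s, u j) + (e a - u a) * ∏ j ∈ s, u j := by ring
    have h2 : |∏ j ∈ s, u j| ≤ S ^ s.card := by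
      rw [Finset.abs_prod]
      calc ∏ j ∈ s, |u j| ≤ ∏ j ∈ s, S := Finset.prod_le_prod (fun _ _ => abs_nonneg _) (fun j hj => hu j (Finset.mem_insert_of_mem hj))
        _ = S ^ s.card := by rw [Finset.prod_const]
    have h3 := he a (Finset.mem_insert_self a s)
    have h4 : 0 ≤ ∑ j ∈ s, |e j - u j| := Finset.sum_nonneg (fun _ _ => abs_nonneg _)
    have h5 : 0 ≤ S ^ s.card := by positivity
    rw [h1]
    calc S * |e a * (∏ j ∈ s, e j - ∏ j ∈ s, u j) + (e a - u a) * ∏ j ∈ s, u j|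
        ≤ S * (|e a| * |∏ j ∈ s, e j - ∏ j ∈ s, u j| + |e a - u a| * |∏ j ∈ s, u j|) := by
          apply mul_le_mul_of_nonneg_left _ hS
          refine (abs_add_le _ _).trans (le_of_eq ?_)
          rw [abs_mul, abs_mul]
      _ = |e a| * (S * |∏ j ∈ s, e j - ∏ j ∈ s, u j|) + S * |e a - u a| * |∏ j ∈ s, u j| := by ring
      _ ≤ S * ((∑ j ∈ s, |e j - u j|) * S ^ s.card) + S * |e a - u a| * S ^ s.card := by
          apply add_le_add
          · exact mul_le_mul h3 ih' (by positivity) hS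
          · exact mul_le_mul_of_nonneg_left h2 (by positivity)
      _ = _ := by ring

/-- pointwise bound for the difference of products of at most five factors -/
lemma prod_diff5 {k : ℕ} (hk : k ≤ 5) (e u : Fin k → ℝ) :
    |∏ j, e j - ∏ j, u j| ≤ (∑ j, |e j - u j|) ^ (1/4:ℝ) * (1 + ∑ j, (|e j| + |u j|)) ^ (19/4:ℝ) := by
  set S : ℝ := 1 + ∑ j, (|e j| + |u j|) with hS
  set Δ : ℝ := ∑ j, |e j - u j| with hΔ
  have h0 : 0 ≤ ∑ j, (|e j| + |u j|) := Finset.sum_nonneg (fun _ _ => by positivity)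
  have hS1 : 1 ≤ S := by linarith
  have hS0 : 0 < S := by linarith
  have hΔ0 : 0 ≤ Δ := Finset.sum_nonneg (fun _ _ => abs_nonneg _)
  have hΔS : Δ ≤ S := by
    have : Δ ≤ ∑ j, (|e j| + |u j|) := by
      apply Finset.sum_le_sum
      intro j _
      exact abs_sub _ _
    linarith
  have hj : ∀ j, |e j| + |u j| ≤ S := by
    intro j
    have := Finset.single_le_sum (f := fun j => |e j| + |u j|) (fun i _ => by positivity) (Finset.mem_univ j)
    linarith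
  have h1 := prod_diff (univ : Finset (Fin k)) e u hS0.le (fun j _ => by linarith [hj j, abs_nonneg (u j)])
    (fun j _ => by linarith [hj j, abs_nonneg (e j)])
  rw [Finset.card_univ, Fintype.card_fin] at h1
  have h2 : S ^ k ≤ S ^ 5 := pow_le_pow_right₀ hS1 hk
  have h3 : S * |∏ j, e j - ∏ j, u j| ≤ S * (Δ * S ^ 4) := by
    calc _ ≤ Δ * S ^ k := h1
      _ ≤ Δ * S ^ 5 := mul_le_mul_of_nonneg_left h2 hΔ0
      _ = _ := by ring
  have h4 : |∏ j, e j - ∏ j, u j| ≤ Δ * S ^ 4 := le_of_mul_le_mul_left h3 hS0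
  refine h4.trans ?_
  rcases hΔ0.eq_or_lt with h | h
  · rw [← h, zero_mul]; positivity
  have h5 : Δ = Δ ^ (1/4:ℝ) * Δ ^ (3/4:ℝ) := by rw [← Real.rpow_add h]; norm_num
  have h6 : Δ ^ (3/4:ℝ) ≤ S ^ (3/4:ℝ) := Real.rpow_le_rpow hΔ0 hΔS (by norm_num)
  have h7 : S ^ (19/4:ℝ) = S ^ (3/4:ℝ) * S ^ 4 := by
    rw [← Real.rpow_natCast S 4, ← Real.rpow_add hS0]; norm_num
  rw [h7]
  calc Δ * S ^ 4 = Δ ^ (1/4:ℝ) * Δ ^ (3/4:ℝ) * S ^ 4 := by rw [← h5]
    _ ≤ Δ ^ (1/4:ℝ) * S ^ (3/4:ℝ) * S ^ 4 := by gcongr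
    _ = _ := by ring

/-- Hölder's inequality in the form needed -/
lemma holder_sum (s : Finset ℕ) (f g : ℕ → ℝ) (hf : ∀ n, 0 ≤ f n) (hg : ∀ n, 0 ≤ g n) :
    ∑ n ∈ s, f n ^ (1/4:ℝ) * g n ^ (19/4:ℝ) ≤ (∑ n ∈ s, f n ^ 2) ^ (1/8:ℝ) * (∑ n ∈ s, g n ^ (38/7:ℝ)) ^ (7/8:ℝ) := by
  have hpq : (8:ℝ).HolderConjugate (8/7) := by
    rw [Real.holderConjugate_iff]; norm_num
  have h := Real.inner_le_Lp_mul_Lq_of_nonneg s hpq (f := fun n => f n ^ (1/4:ℝ)) (g := fun n => g n ^ (19/4:ℝ))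
    (fun n _ => Real.rpow_nonneg (hf n) _) (fun n _ => Real.rpow_nonneg (hg n) _)
  refine h.trans (le_of_eq ?_)
  congr 1
  · congr 1
    apply Finset.sum_congr rfl
    intro n _
    rw [← Real.rpow_mul (hf n), ← Real.rpow_natCast]
    norm_num
  · rw [show (1:ℝ) / (8/7) = 7/8 by norm_num]
    congr 1
    apply Finset.sum_congr rfl
    intro n _
    rw [← Real.rpow_mul (hg n)]
    norm_num

end Pool.Agent.Y938.Pm
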