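import Mathlib
import Pool.Agent.Y938.Pm.B

/-!
# Mixed moments of total order at most five, with a power saving
-/

open Filter Topology Finset
open Pool.Agent.H383.AP Pool.Agent.H383.Gen Pool.Agent.H383.Gauss
open Pool.Agent.H425R3.JL (Tl_pow)

namespace Pool.Agent.Y938.Pm

/-- hypotheses on one factor -/
structure Fac (af : ℕ → ℝ) (φ : ℝ) (κ : ℕ) (X : ℝ) (e : ℕ → ℝ) : Prop where
  pos : 0 < κ
  l2 : ∃ C : ℝ, 0 < C ∧ ∃ N0 : ℕ, ∀ N : ℕ, N0 ≤ N → ∀ M : ℕ, 1 ≤ M → (M:ℝ) ≤ (N:ℝ) ^ (1/200:ℝ) →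
      ∑ n ∈ range N, (e n - U af φ (X + n * √(κ:ℝ)) M)^2 ≤ C * (Tl M + (N:ℝ) ^ (-(1/100):ℝ)) * N
  mom : ∃ C : ℝ, 0 < C ∧ ∃ N0 : ℕ, ∀ N : ℕ, N0 ≤ N → ∑ n ∈ range N, |e n| ^ (38/7:ℝ) ≤ C * N

lemma bd_pow {af : ℕ → ℝ} (ha : Bd af) : ∃ C : ℝ, 0 < C ∧ ∀ m : ℕ, 1 ≤ m → |af m| ≤ C * (m:ℝ) ^ (-(37/50):ℝ) := by
  obtain ⟨C, hC, h⟩ := ha
  refine ⟨C, hC, fun m hm => (h m hm).trans (le_of_eq ?_)⟩
  rw [Real.sqrt_eq_rpow, ← Real.rpow_mul (Nat.cast_nonneg m)]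
  norm_num

lemma tendsto_of_rate {x : ℕ → ℝ} {L C : ℝ} (h : ∀ N : ℕ, 0 < N → |x N - L| ≤ C / (2 * N)) : Tendsto x atTop (𝓝 L) := by
  rw [tendsto_iff_dist_tendsto_zero]
  have h1 : Tendsto (fun N : ℕ => C / 2 * (1 / (N:ℝ))) atTop (𝓝 0) := by
    have := (tendsto_one_div_atTop_nhds_zero_nat (𝕜 := ℝ)).const_mul (C/2)
    rwa [mul_zero] at this
  refine squeeze_zero' (Eventually.of_forall (fun _ => dist_nonneg)) ?_ h1
  filter_upwards [eventually_gt_atTop 0] with N hN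
  rw [Real.dist_eq]
  refine (h N hN).trans (le_of_eq ?_)
  have : (0:ℝ) < N := by exact_mod_cast hN
  field_simp

/-- high moments of the model polynomials over the integers -/
lemma U_mom {af : ℕ → ℝ} (ha : Bd af) (φ X : ℝ) {κ : ℕ} (hκ : 0 < κ) :
    ∃ C : ℝ, 0 < C ∧ ∀ N : ℕ, 0 < N → ∀ M : ℕ, 1 ≤ M → (M:ℝ) ≤ (N:ℝ) ^ (1/200:ℝ) →
      ∑ n ∈ range N, |U af φ (X + n * √(κ:ℝ)) M| ^ (38/7:ℝ) ≤ C * N := by
  obtain ⟨C0, hC0, hco⟩ := sum_coef ha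
  obtain ⟨C1, hC1, hpw⟩ := bd_pow ha
  have hα : 0 < √(κ:ℝ) := Real.sqrt_pos.mpr (by exact_mod_cast hκ)
  obtain ⟨S0, hS⟩ := Pool.Agent.H383.Gauss.exists_S hα
  obtain ⟨B0, D, hB0, hD, hm⟩ := mom_bound (φ := φ) (X := X) hS (by norm_num : (1:ℝ)/2 < 37/50) hC1 hpw
    (p := 3/2) (by norm_num) (by norm_num) (by norm_num)
  set G : ℝ := ((2 * 3).factorial : ℝ) / 1 ^ (2 * 3) * (2 * Real.exp (B0 * 1 + D * 1 ^ (3/2:ℝ))) with hG
  have hG0 : 0 < G := by rw [hG]; positivity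
  set K : ℝ := (C0)^6 * (12 * √(κ:ℝ) + 1)^64 with hK
  have hK0 : 0 < K := by rw [hK]; positivity
  refine ⟨1 + G + K, by positivity, ?_⟩
  intro N hN M hM hMN
  have hN1 : (1:ℝ) ≤ N := by exact_mod_cast hN
  have hN0 : (0:ℝ) < N := by linarith
  have hM1 : (1:ℝ) ≤ M := by exact_mod_cast hM
  obtain ⟨L, hL⟩ := mixed_avg (k := 6) af φ (fun _ => κ) (fun _ => hκ) (fun _ => X) (M := M) (Y := √(κ:ℝ) * M)
    (W := C0 * (M:ℝ)^2) (by positivity) (fun _ => le_rfl) (hco M)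
  have e6 : ∀ n : ℕ, ∏ _j : Fin 6, U af φ (X + n * √(κ:ℝ)) M = (U af φ (X + n * √(κ:ℝ)) M) ^ (2 * 3) := by
    intro n
    rw [Finset.prod_const, Finset.card_univ, Fintype.card_fin]
  simp only [e6] at hL
  have hT : Tendsto (rm (fun n => (U af φ (X + n * √(κ:ℝ)) M) ^ (2 * 3))) atTop (𝓝 L) := tendsto_of_rate hL
  have hLG : L ≤ G := hm 1 one_pos M 3 L hT
  have h1 := hL N hN
  have h2 : rm (fun n => (U af φ (X + n * √(κ:ℝ)) M) ^ (2 * 3)) N ≤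
      L + (C0 * (M:ℝ)^2) ^ 6 * (2 * (6:ℕ) * (√(κ:ℝ) * M) + 1) ^ (2 ^ 6) / (2 * N) := by
    have := abs_le.mp h1
    linarith [this.2]
  have h3 : (C0 * (M:ℝ)^2) ^ 6 * (2 * (6:ℕ) * (√(κ:ℝ) * M) + 1) ^ (2 ^ 6) / (2 * N) ≤ K := by
    have h4 : (2 * (6:ℕ) * (√(κ:ℝ) * M) + 1) ≤ (12 * √(κ:ℝ) + 1) * M := by
      push_cast
      nlinarith
    have h5 : (C0 * (M:ℝ)^2) ^ 6 * (2 * (6:ℕ) * (√(κ:ℝ) * M) + 1) ^ (2 ^ 6) ≤ K * (M:ℝ)^76 := by
      calc (C0 * (M:ℝ)^2) ^ 6 * (2 * (6:ℕ) * (√(κ:ℝ) * M) + 1) ^ (2 ^ 6) ≤ (C0 * (M:ℝ)^2) ^ 6 * ((12 * √(κ:ℝ) + 1) * M) ^ (2^6) := by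
            gcongr
        _ = K * (M:ℝ)^76 := by rw [hK]; ring
    have h6 : (M:ℝ)^76 ≤ N := by
      calc (M:ℝ)^76 ≤ ((N:ℝ) ^ (1/200:ℝ))^76 := pow_le_pow_left₀ (by positivity) hMN 76
        _ = (N:ℝ) ^ (76/200:ℝ) := by rw [← Real.rpow_natCast, ← Real.rpow_mul hN0.le]; norm_num
        _ ≤ (N:ℝ) ^ (1:ℝ) := Real.rpow_le_rpow_of_exponent_le hN1 (by norm_num)
        _ = N := Real.rpow_one _
    rw [div_le_iff₀ (by positivity)]
    calc _ ≤ K * (M:ℝ)^76 := h5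
      _ ≤ K * N := by gcongr
      _ ≤ K * (2 * N) := by nlinarith
  have h7 : ∑ n ∈ range N, (U af φ (X + n * √(κ:ℝ)) M) ^ (2 * 3) ≤ (G + K) * N := by
    have : rm (fun n => (U af φ (X + n * √(κ:ℝ)) M) ^ (2 * 3)) N ≤ G + K := by linarith
    unfold rm at this
    rwa [div_le_iff₀ hN0] at this
  calc ∑ n ∈ range N, |U af φ (X + n * √(κ:ℝ)) M| ^ (38/7:ℝ)
      ≤ ∑ n ∈ range N, (1 + (U af φ (X + n * √(κ:ℝ)) M) ^ (2 * 3)) := by
        apply Finset.sum_le_sum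
        intro n _
        set x := U af φ (X + n * √(κ:ℝ)) M with hx
        have e1 : x ^ (2 * 3) = |x| ^ (6:ℝ) := by
          rw [show (6:ℝ) = ((6:ℕ):ℝ) by norm_num, Real.rpow_natCast]
          exact (Even.pow_abs (by decide) x).symm
        rw [e1]
        rcases le_total |x| 1 with h | h
        · have : |x| ^ (38/7:ℝ) ≤ 1 := Real.rpow_le_one (abs_nonneg _) h (by norm_num)
          have h8 : 0 ≤ |x| ^ (6:ℝ) := by positivity
          linarith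
        · have : |x| ^ (38/7:ℝ) ≤ |x| ^ (6:ℝ) := Real.rpow_le_rpow_of_exponent_le h (by norm_num)
          linarith
    _ = N + ∑ n ∈ range N, (U af φ (X + n * √(κ:ℝ)) M) ^ (2 * 3) := by
        rw [Finset.sum_add_distrib, Finset.sum_const, Finset.card_range, nsmul_eq_mul, mul_one]
    _ ≤ N + (G + K) * N := by linarith
    _ = _ := by ring

lemma three_rpow {x y z q : ℝ} (hx : 0 ≤ x) (hy : 0 ≤ y) (hz : 0 ≤ z) (hq : 0 ≤ q) :
    (x + y + z) ^ q ≤ 3 ^ q * (x ^ q + y ^ q + z ^ q) := by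
  have hxq : 0 ≤ x ^ q := by positivity
  have hyq : 0 ≤ y ^ q := by positivity
  have hzq : 0 ≤ z ^ q := by positivity
  have h : ∀ w : ℝ, 0 ≤ w → x ≤ w → y ≤ w → z ≤ w → w ^ q ≤ x ^ q + y ^ q + z ^ q → (x + y + z) ^ q ≤ 3 ^ q * (x ^ q + y ^ q + z ^ q) := by
    intro w hw h1 h2 h3 h4
    calc (x + y + z) ^ q ≤ (3 * w) ^ q := Real.rpow_le_rpow (by positivity) (by linarith) hq
      _ = 3 ^ q * w ^ q := Real.mul_rpow (by norm_num) hw
      _ ≤ _ := mul_le_mul_of_nonneg_left h4 (by positivity)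
  rcases le_total x y with h1 | h1
  · rcases le_total y z with h2 | h2
    · exact h z hz (h1.trans h2) h2 le_rfl (by linarith)
    · exact h y hy h1 le_rfl h2 (by linarith)
  · rcases le_total x z with h2 | h2
    · exact h z hz h2 (h1.trans h2) le_rfl (by linarith)
    · exact h x hx le_rfl h1 h2 (by linarith)

/-- comparison of the moments of the error term with those of the model -/
theorem compare {af : ℕ → ℝ} (ha : Bd af) {φ : ℝ} {k : ℕ} (hk : k ≤ 5) {κ : Fin k → ℕ} {X : Fin k → ℝ} {e : Fin k → ℕ → ℝ}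
    (hF : ∀ j, Fac af φ (κ j) (X j) (e j)) :
    ∃ C : ℝ, 0 < C ∧ ∃ N0 : ℕ, ∀ N : ℕ, N0 ≤ N → ∀ M : ℕ, 1 ≤ M → (M:ℝ) ≤ (N:ℝ) ^ (1/200:ℝ) →
      |rm (fun n => ∏ j, e j n) N - rm (fun n => ∏ j, U af φ (X j + n * √(κ j:ℝ)) M) N| ≤
        C * (Tl M + (N:ℝ) ^ (-(1/100):ℝ)) ^ (1/8:ℝ) := by
  choose CA hCA NA hA using fun j => (hF j).l2
  choose CB hCB NB hB using fun j => (hF j).mom
  choose CU hCU hU using fun j => U_mom ha φ (X j) (hF j).pos
  set A : ℝ := 1 + k * ∑ j, CA j with hAdef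
  set kq : ℝ := (k:ℝ) ^ (38/7 - 1 : ℝ) with hkq
  have hkq0 : 0 ≤ kq := by positivity
  set B : ℝ := 3 ^ (38/7:ℝ) * (1 + kq * (∑ j, CB j) + kq * ∑ j, CU j) with hBdef
  have hsA : 0 ≤ ∑ j, CA j := Finset.sum_nonneg (fun j _ => (hCA j).le)
  have hsB : 0 ≤ ∑ j, CB j := Finset.sum_nonneg (fun j _ => (hCB j).le)
  have hsU : 0 ≤ ∑ j, CU j := Finset.sum_nonneg (fun j _ => (hCU j).le)
  have hA0 : 0 < A := by positivity
  have hB0 : 0 < B := by positivity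
  refine ⟨A ^ (1/8:ℝ) * B ^ (7/8:ℝ), by positivity, (univ.sup NA) + (univ.sup NB) + 1, ?_⟩
  intro N hN M hM hMN
  have hN1 : 0 < N := by omega
  have hN0 : (0:ℝ) < N := by exact_mod_cast hN1
  set T : ℝ := Tl M + (N:ℝ) ^ (-(1/100):ℝ) with hT
  have hT0 : 0 < T := by
    have : 0 ≤ Tl M := Tl_nonneg M
    positivity
  set u : Fin k → ℕ → ℝ := fun j n => U af φ (X j + n * √(κ j:ℝ)) M with hu
  have hNA : ∀ j, NA j ≤ N := fun j => (Finset.le_sup (f := NA) (Finset.mem_univ j)).trans (by omega)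
  have hNB : ∀ j, NB j ≤ N := fun j => (Finset.le_sup (f := NB) (Finset.mem_univ j)).trans (by omega)
  have h1 : rm (fun n => ∏ j, e j n) N - rm (fun n => ∏ j, u j n) N = (∑ n ∈ range N, (∏ j, e j n - ∏ j, u j n)) / N := by
    unfold rm
    rw [Finset.sum_sub_distrib, sub_div]
  rw [h1, abs_div, abs_of_pos hN0, div_le_iff₀ hN0]
  have h2 : |∑ n ∈ range N, (∏ j, e j n - ∏ j, u j n)| ≤
      ∑ n ∈ range N, (∑ j, |e j n - u j n|) ^ (1/4:ℝ) * (1 + ∑ j, (|e j n| + |u j n|)) ^ (19/4:ℝ) :=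
    (Finset.abs_sum_le_sum_abs _ _).trans (Finset.sum_le_sum (fun n _ => prod_diff5 hk (fun j => e j n) (fun j => u j n)))
  refine h2.trans ((holder_sum (range N) (fun n => ∑ j, |e j n - u j n|) (fun n => 1 + ∑ j, (|e j n| + |u j n|))
    (fun n => Finset.sum_nonneg (fun _ _ => abs_nonneg _)) (fun n => by positivity)).trans ?_)
  have h3 : ∑ n ∈ range N, (∑ j, |e j n - u j n|)^2 ≤ A * (T * N) := by
    calc ∑ n ∈ range N, (∑ j, |e j n - u j n|)^2 ≤ ∑ n ∈ range N, (k:ℝ) * ∑ j, (e j n - u j n)^2 := by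
          apply Finset.sum_le_sum
          intro n _
          have := sq_sum_le_card_mul_sum_sq (s := (univ : Finset (Fin k))) (f := fun j => |e j n - u j n|)
          simp only [Finset.card_univ, Fintype.card_fin, sq_abs] at this
          exact this
      _ = k * ∑ j, ∑ n ∈ range N, (e j n - u j n)^2 := by rw [← Finset.mul_sum, Finset.sum_comm]
      _ ≤ k * ∑ j, CA j * T * N := by
          apply mul_le_mul_of_nonneg_left _ (Nat.cast_nonneg k)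
          apply Finset.sum_le_sum
          intro j _
          exact hA j N (hNA j) M hM hMN
      _ = (k * ∑ j, CA j) * (T * N) := by
          rw [mul_assoc, Finset.sum_mul]
          congr 1
          apply Finset.sum_congr rfl
          intro j _
          ring
      _ ≤ A * (T * N) := by
          apply mul_le_mul_of_nonneg_right _ (by positivity)
          rw [hAdef]; linarith
  have h4 : ∑ n ∈ range N, (1 + ∑ j, (|e j n| + |u j n|)) ^ (38/7:ℝ) ≤ B * N := by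
    calc ∑ n ∈ range N, (1 + ∑ j, (|e j n| + |u j n|)) ^ (38/7:ℝ)
        ≤ ∑ n ∈ range N, 3 ^ (38/7:ℝ) * (1 + kq * ∑ j, |e j n| ^ (38/7:ℝ) + kq * ∑ j, |u j n| ^ (38/7:ℝ)) := by
          apply Finset.sum_le_sum
          intro n _
          rw [Finset.sum_add_distrib, ← add_assoc]
          refine (three_rpow zero_le_one (Finset.sum_nonneg (fun _ _ => abs_nonneg _)) (Finset.sum_nonneg (fun _ _ => abs_nonneg _))
            (by norm_num)).trans ?_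
          rw [Real.one_rpow]
          apply mul_le_mul_of_nonneg_left _ (by positivity)
          have g1 : (∑ j, |e j n|) ^ (38/7:ℝ) ≤ kq * ∑ j, |e j n| ^ (38/7:ℝ) := by
            have := Real.rpow_sum_le_const_mul_sum_rpow (univ : Finset (Fin k)) (fun j => e j n) (p := 38/7) (by norm_num)
            rwa [Finset.card_univ, Fintype.card_fin] at this
          have g2 : (∑ j, |u j n|) ^ (38/7:ℝ) ≤ kq * ∑ j, |u j n| ^ (38/7:ℝ) := by
            have := Real.rpow_sum_le_const_mul_sum_rpow (univ : Finset (Fin k)) (fun j => u j n) (p := 38/7) (by norm_num)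
            rwa [Finset.card_univ, Fintype.card_fin] at this
          linarith
      _ = 3 ^ (38/7:ℝ) * (N + kq * ∑ j, ∑ n ∈ range N, |e j n| ^ (38/7:ℝ) + kq * ∑ j, ∑ n ∈ range N, |u j n| ^ (38/7:ℝ)) := by
          rw [← Finset.mul_sum, Finset.sum_add_distrib, Finset.sum_add_distrib, ← Finset.mul_sum, ← Finset.mul_sum,
            Finset.sum_comm, Finset.sum_const, Finset.card_range, nsmul_eq_mul, mul_one]
          congr 3
          rw [Finset.sum_comm]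
      _ ≤ 3 ^ (38/7:ℝ) * (N + kq * ∑ j, CB j * N + kq * ∑ j, CU j * N) := by
          apply mul_le_mul_of_nonneg_left _ (by positivity)
          have g1 : ∑ j, ∑ n ∈ range N, |e j n| ^ (38/7:ℝ) ≤ ∑ j, CB j * N :=
            Finset.sum_le_sum (fun j _ => hB j N (hNB j))
          have g2 : ∑ j, ∑ n ∈ range N, |u j n| ^ (38/7:ℝ) ≤ ∑ j, CU j * N :=
            Finset.sum_le_sum (fun j _ => hU j N hN1 M hM hMN)
          have g3 := mul_le_mul_of_nonneg_left g1 hkq0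
          have g4 := mul_le_mul_of_nonneg_left g2 hkq0
          linarith
      _ = B * N := by
          rw [← Finset.sum_mul, ← Finset.sum_mul, hBdef]
          ring
  have h5 : (A * (T * N)) ^ (1/8:ℝ) * (B * N) ^ (7/8:ℝ) = A ^ (1/8:ℝ) * B ^ (7/8:ℝ) * T ^ (1/8:ℝ) * N := by
    rw [Real.mul_rpow hA0.le (by positivity), Real.mul_rpow hT0.le hN0.le, Real.mul_rpow hB0.le hN0.le]
    have : (N:ℝ) ^ (1/8:ℝ) * (N:ℝ) ^ (7/8:ℝ) = N := by
      rw [← Real.rpow_add hN0]; norm_num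
    calc A ^ (1/8:ℝ) * (T ^ (1/8:ℝ) * (N:ℝ) ^ (1/8:ℝ)) * (B ^ (7/8:ℝ) * (N:ℝ) ^ (7/8:ℝ))
        = A ^ (1/8:ℝ) * B ^ (7/8:ℝ) * T ^ (1/8:ℝ) * ((N:ℝ) ^ (1/8:ℝ) * (N:ℝ) ^ (7/8:ℝ)) := by ring
      _ = _ := by rw [this]
  rw [← h5]
  have h30 : 0 ≤ ∑ n ∈ range N, (∑ j, |e j n - u j n|)^2 := by positivity
  have h40 : 0 ≤ ∑ n ∈ range N, (1 + ∑ j, (|e j n| + |u j n|)) ^ (38/7:ℝ) := Finset.sum_nonneg (fun n _ => by positivity)
  exact mul_le_mul (Real.rpow_le_rpow h30 h3 (by norm_num)) (Real.rpow_le_rpow h40 h4 (by norm_num))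
    (Real.rpow_nonneg h40 _) (by positivity)

end Pool.Agent.Y938.Pm
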