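import Mathlib
import Pool.Agent.Y938.Pm.C

/-!
# Mixed moments of total order at most five: the limit and the rate
-/

open Filter Topology Finset
open Pool.Agent.H383.AP Pool.Agent.H383.Gen Pool.Agent.H383.Gauss
open Pool.Agent.H425R3.JL (Tl_pow)

namespace Pool.Agent.Y938.Pm

lemma rpow_eighth {x y : ℝ} (hx : 0 ≤ x) (h : x ≤ y) : x ^ (1/8:ℝ) ≤ y ^ (1/8:ℝ) := Real.rpow_le_rpow hx h (by norm_num)

/-- the averages of the products of the model polynomials -/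
lemma model_lim {af : ℕ → ℝ} (ha : Bd af) (φ : ℝ) {k : ℕ} (hk : k ≤ 5) {κ : Fin k → ℕ} (hκ : ∀ j, 0 < κ j) (X : Fin k → ℝ) :
    ∃ C : ℝ, 0 < C ∧ ∃ L : ℕ → ℝ, ∀ M : ℕ, 1 ≤ M → ∀ N : ℕ, 0 < N →
      |rm (fun n => ∏ j, U af φ (X j + n * √(κ j:ℝ)) M) N - L M| ≤ C * (M:ℝ)^42 / N := by
  obtain ⟨C0, hC0, hco⟩ := sum_coef ha
  set Km : ℝ := ∑ j, √(κ j:ℝ) with hKm
  have hKm0 : 0 ≤ Km := Finset.sum_nonneg (fun _ _ => Real.sqrt_nonneg _)
  have hKj : ∀ j, √(κ j:ℝ) ≤ Km := fun j => Finset.single_le_sum (f := fun j => √(κ j:ℝ)) (fun _ _ => Real.sqrt_nonneg _) (Finset.mem_univ j)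
  have h0 : ∀ M : ℕ, ∃ L : ℝ, ∀ N : ℕ, 0 < N → |rm (fun n => ∏ j, U af φ (X j + n * √(κ j:ℝ)) M) N - L| ≤
      ((C0 + 1) * (M:ℝ)^2) ^ k * (2 * k * (Km * M) + 1) ^ (2 ^ k) / (2 * N) := by
    intro M
    apply mixed_avg af φ κ hκ X (by positivity)
    · intro j
      exact mul_le_mul_of_nonneg_right (hKj j) (Nat.cast_nonneg M)
    · refine (hco M).trans ?_
      apply mul_le_mul_of_nonneg_right _ (by positivity)
      linarith
  choose L hL using h0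
  refine ⟨(C0 + 1)^5 * (10 * Km + 1)^32, by positivity, L, fun M hM N hN => (hL M N hN).trans ?_⟩
  have hM1 : (1:ℝ) ≤ M := by exact_mod_cast hM
  have hN' : (0:ℝ) < N := by exact_mod_cast hN
  have hk5 : (k:ℝ) ≤ 5 := by exact_mod_cast hk
  have h1 : ((C0 + 1) * (M:ℝ)^2) ^ k ≤ ((C0 + 1) * (M:ℝ)^2) ^ 5 := by
    apply pow_le_pow_right₀ _ hk
    have : 1 ≤ (M:ℝ)^2 := one_le_pow₀ hM1
    nlinarith
  have h2 : 2 * k * (Km * M) + 1 ≤ (10 * Km + 1) * M := by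
    have : 2 * k * (Km * M) ≤ 10 * Km * M := by
      have h3 : 0 ≤ Km * M := by positivity
      nlinarith
    linarith
  have h3 : 1 ≤ (10 * Km + 1) * M := by nlinarith
  have h4 : (2 * k * (Km * M) + 1) ^ (2 ^ k) ≤ ((10 * Km + 1) * M) ^ 32 := by
    calc (2 * k * (Km * M) + 1) ^ (2 ^ k) ≤ ((10 * Km + 1) * M) ^ (2 ^ k) := by gcongr
      _ ≤ ((10 * Km + 1) * M) ^ 32 := by
          apply pow_le_pow_right₀ h3
          calc 2 ^ k ≤ 2 ^ 5 := Nat.pow_le_pow_right (by norm_num) hk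
            _ = 32 := by norm_num
  calc ((C0 + 1) * (M:ℝ)^2) ^ k * (2 * k * (Km * M) + 1) ^ (2 ^ k) / (2 * N)
      ≤ ((C0 + 1) * (M:ℝ)^2) ^ 5 * ((10 * Km + 1) * M) ^ 32 / (2 * N) := by gcongr
    _ = ((C0 + 1)^5 * (10 * Km + 1)^32 * (M:ℝ)^42) / (2 * N) := by ring
    _ ≤ _ := by
        apply div_le_div_of_nonneg_left (by positivity) hN'
        linarith

/-- **mixed moments with a power saving** -/
theorem main {af : ℕ → ℝ} (ha : Bd af) {φ : ℝ} {k : ℕ} (hk : k ≤ 5) {κ : Fin k → ℕ} {X : Fin k → ℝ} {e : Fin k → ℕ → ℝ}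
    (hF : ∀ j, Fac af φ (κ j) (X j) (e j)) :
    ∃ c C : ℝ, 0 < C ∧ ∀ N : ℕ, |∑ n ∈ range N, ∏ j, e j n - c * N| ≤ C * (N:ℝ) ^ (1 - 1/320000 : ℝ) := by
  obtain ⟨C1, hC1, N1, hcmp⟩ := compare ha hk hF
  obtain ⟨C2, hC2, L, hL⟩ := model_lim ha φ hk (fun j => (hF j).pos) X
  obtain ⟨CT, hCT, hTl⟩ := Tl_pow
  set A : ℕ → ℝ := rm (fun n => ∏ j, e j n) with hA
  -- the distance from the average to the model mean
  have hG : ∀ M : ℕ, 1 ≤ M → ∀ N : ℕ, N1 ≤ N → 0 < N → (M:ℝ) ≤ (N:ℝ) ^ (1/200:ℝ) →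
      |A N - L M| ≤ C1 * (Tl M + (N:ℝ) ^ (-(1/100):ℝ)) ^ (1/8:ℝ) + C2 * (M:ℝ)^42 / N := by
    intro M hM N hN hN0 hMN
    have h1 := hcmp N hN M hM hMN
    have h2 := hL M hM N hN0
    calc |A N - L M| = |(A N - rm (fun n => ∏ j, U af φ (X j + n * √(κ j:ℝ)) M) N) +
          (rm (fun n => ∏ j, U af φ (X j + n * √(κ j:ℝ)) M) N - L M)| := by ring_nf
      _ ≤ _ := (abs_add_le _ _).trans (add_le_add h1 h2)
  have hGlim : ∀ M : ℕ, Tendsto (fun N : ℕ => C1 * (Tl M + (N:ℝ) ^ (-(1/100):ℝ)) ^ (1/8:ℝ) + C2 * (M:ℝ)^42 / N) atTop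
      (𝓝 (C1 * (Tl M) ^ (1/8:ℝ))) := by
    intro M
    have h1 : Tendsto (fun N : ℕ => (N:ℝ) ^ (-(1/100):ℝ)) atTop (𝓝 0) :=
      (tendsto_rpow_neg_atTop (by norm_num : (0:ℝ) < 1/100)).comp tendsto_natCast_atTop_atTop
    have h2 : Tendsto (fun N : ℕ => (Tl M + (N:ℝ) ^ (-(1/100):ℝ)) ^ (1/8:ℝ)) atTop (𝓝 ((Tl M + 0) ^ (1/8:ℝ))) :=
      (h1.const_add (Tl M)).rpow_const (Or.inr (by norm_num))
    have h3 : Tendsto (fun N : ℕ => C2 * (M:ℝ)^42 / (N:ℝ)) atTop (𝓝 0) :=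
      tendsto_const_nhds.div_atTop tendsto_natCast_atTop_atTop
    have h4 := (h2.const_mul C1).add h3
    rwa [add_zero, add_zero] at h4
  -- the model means form a Cauchy sequence
  have hLL : ∀ M M' : ℕ, 1 ≤ M → 1 ≤ M' → |L M - L M'| ≤ C1 * (Tl M) ^ (1/8:ℝ) + C1 * (Tl M') ^ (1/8:ℝ) := by
    intro M M' hM hM'
    refine ge_of_tendsto ((hGlim M).add (hGlim M')) ?_
    have hgrow : ∀ M : ℕ, ∀ᶠ N : ℕ in atTop, (M:ℝ) ≤ (N:ℝ) ^ (1/200:ℝ) := by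
      intro M
      have : Tendsto (fun N : ℕ => (N:ℝ) ^ (1/200:ℝ)) atTop atTop :=
        (tendsto_rpow_atTop (by norm_num)).comp tendsto_natCast_atTop_atTop
      exact this.eventually_ge_atTop _
    filter_upwards [hgrow M, hgrow M', eventually_ge_atTop N1, eventually_gt_atTop 0] with N h1 h2 h3 h4
    have g1 := hG M hM N h3 h4 h1
    have g2 := hG M' hM' N h3 h4 h2
    calc |L M - L M'| = |(A N - L M') - (A N - L M)| := by ring_nf
      _ ≤ |A N - L M'| + |A N - L M| := abs_sub _ _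
      _ ≤ _ := by linarith
  set b : ℕ → ℝ := fun M => C1 * (CT * ((M:ℝ) + 1) ^ (-(1/200):ℝ)) ^ (1/8:ℝ) with hb
  have hTb : ∀ M M' : ℕ, M ≤ M' → C1 * (Tl (M' + 1)) ^ (1/8:ℝ) ≤ b M := by
    intro M M' h
    apply mul_le_mul_of_nonneg_left _ hC1.le
    apply rpow_eighth (Tl_nonneg _)
    refine (hTl (M' + 1) (by omega)).trans ?_
    apply mul_le_mul_of_nonneg_left _ hCT.le
    apply Real.rpow_le_rpow_of_nonpos (by positivity) _ (by norm_num)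
    push_cast
    have : (M:ℝ) ≤ M' := by exact_mod_cast h
    linarith
  have hb0 : Tendsto b atTop (𝓝 0) := by
    have h1 : Tendsto (fun M : ℕ => ((M:ℝ) + 1) ^ (-(1/200):ℝ)) atTop (𝓝 0) :=
      (tendsto_rpow_neg_atTop (by norm_num : (0:ℝ) < 1/200)).comp (tendsto_atTop_add_const_right _ _ tendsto_natCast_atTop_atTop)
    have h2 := ((h1.const_mul CT).rpow_const (p := 1/8) (Or.inr (by norm_num))).const_mul C1
    rw [mul_zero, Real.zero_rpow (by norm_num), mul_zero] at h2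
    exact h2
  have hcau : CauchySeq (fun M => L (M + 1)) := by
    apply cauchySeq_of_le_tendsto_0 (fun M => b M + b M)
    · intro n m N hn hm
      rw [Real.dist_eq]
      exact (hLL (n+1) (m+1) (by omega) (by omega)).trans (add_le_add (hTb N n hn) (hTb N m hm))
    · have := hb0.add hb0
      rwa [add_zero] at this
  obtain ⟨c, hc⟩ := cauchySeq_tendsto_of_complete hcau
  have hcL : ∀ M : ℕ, 1 ≤ M → |L M - c| ≤ C1 * (Tl M) ^ (1/8:ℝ) := by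
    intro M hM
    have h1 : Tendsto (fun M' => |L M - L (M' + 1)|) atTop (𝓝 |L M - c|) := (tendsto_const_nhds.sub hc).abs
    have h2 : Tendsto (fun M' : ℕ => C1 * (Tl M) ^ (1/8:ℝ) + b M') atTop (𝓝 (C1 * (Tl M) ^ (1/8:ℝ) + 0)) :=
      tendsto_const_nhds.add hb0
    rw [add_zero] at h2
    refine le_of_tendsto_of_tendsto' h1 h2 (fun M' => ?_)
    have := hLL M (M'+1) hM (by omega)
    have h3 := hTb M' M' le_rfl
    linarith
  -- the rate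
  set K : ℝ := 2 * (C1 * (2 * CT + 1) ^ (1/8:ℝ)) + C2 with hK
  have hK0 : 0 < K := by positivity
  have hrate : ∀ N : ℕ, N1 ≤ N → 0 < N → |A N - c| ≤ K * (N:ℝ) ^ (-(1/320000):ℝ) := by
    intro N hN hN0
    have hN1 : (1:ℝ) ≤ N := by exact_mod_cast hN0
    have hNp : (0:ℝ) < N := by linarith
    set y : ℝ := (N:ℝ) ^ (1/200:ℝ) with hy
    have hy1 : 1 ≤ y := Real.one_le_rpow hN1 (by norm_num)
    set M : ℕ := ⌊y⌋₊ with hM
    have hM1 : 1 ≤ M := by rw [hM]; exact Nat.one_le_floor_iff _ |>.mpr hy1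
    have hMy : (M:ℝ) ≤ y := Nat.floor_le (by linarith)
    have hMy2 : y / 2 ≤ M := by
      have := Nat.lt_floor_add_one y
      have h1 : (1:ℝ) ≤ M := by exact_mod_cast hM1
      rw [← hM] at this
      linarith
    have hM0 : (0:ℝ) < M := by exact_mod_cast hM1
    have hTM : Tl M ≤ 2 * CT * (N:ℝ) ^ (-(1/40000):ℝ) := by
      refine (hTl M hM1).trans ?_
      have h1 : (M:ℝ) ^ (-(1/200):ℝ) ≤ (y/2) ^ (-(1/200):ℝ) := Real.rpow_le_rpow_of_nonpos (by positivity) hMy2 (by norm_num)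
      have h2 : (y/2) ^ (-(1/200):ℝ) = y ^ (-(1/200):ℝ) * (2:ℝ) ^ (1/200:ℝ) := by
        rw [Real.div_rpow (by linarith) (by norm_num), div_eq_mul_inv, ← Real.rpow_neg (by norm_num)]
        norm_num
      have h3 : (2:ℝ) ^ (1/200:ℝ) ≤ 2 := by
        calc (2:ℝ) ^ (1/200:ℝ) ≤ (2:ℝ) ^ (1:ℝ) := Real.rpow_le_rpow_of_exponent_le (by norm_num) (by norm_num)
          _ = 2 := Real.rpow_one _
      have h4 : y ^ (-(1/200):ℝ) = (N:ℝ) ^ (-(1/40000):ℝ) := by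
        rw [hy, ← Real.rpow_mul hNp.le]; norm_num
      have h5 : 0 ≤ (N:ℝ) ^ (-(1/40000):ℝ) := by positivity
      calc CT * (M:ℝ) ^ (-(1/200):ℝ) ≤ CT * ((N:ℝ) ^ (-(1/40000):ℝ) * 2) := by
            apply mul_le_mul_of_nonneg_left _ hCT.le
            refine h1.trans ?_
            rw [h2, h4]
            exact mul_le_mul_of_nonneg_left h3 h5
        _ = _ := by ring
    have hNe : (N:ℝ) ^ (-(1/100):ℝ) ≤ (N:ℝ) ^ (-(1/40000):ℝ) := Real.rpow_le_rpow_of_exponent_le hN1 (by norm_num)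
    have h40 : 0 ≤ (N:ℝ) ^ (-(1/40000):ℝ) := by positivity
    have hpw : ((2 * CT + 1) * (N:ℝ) ^ (-(1/40000):ℝ)) ^ (1/8:ℝ) = (2 * CT + 1) ^ (1/8:ℝ) * (N:ℝ) ^ (-(1/320000):ℝ) := by
      rw [Real.mul_rpow (by positivity) h40, ← Real.rpow_mul hNp.le]; norm_num
    have g1 : C1 * (Tl M + (N:ℝ) ^ (-(1/100):ℝ)) ^ (1/8:ℝ) ≤ C1 * ((2 * CT + 1) ^ (1/8:ℝ) * (N:ℝ) ^ (-(1/320000):ℝ)) := by
      rw [← hpw]
      apply mul_le_mul_of_nonneg_left _ hC1.le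
      apply rpow_eighth (add_nonneg (Tl_nonneg _) (by positivity))
      linarith
    have g2 : C1 * (Tl M) ^ (1/8:ℝ) ≤ C1 * ((2 * CT + 1) ^ (1/8:ℝ) * (N:ℝ) ^ (-(1/320000):ℝ)) := by
      rw [← hpw]
      apply mul_le_mul_of_nonneg_left _ hC1.le
      apply rpow_eighth (Tl_nonneg _)
      linarith
    have g3 : C2 * (M:ℝ)^42 / N ≤ C2 * (N:ℝ) ^ (-(1/320000):ℝ) := by
      rw [mul_div_assoc]
      apply mul_le_mul_of_nonneg_left _ hC2.le
      calc (M:ℝ)^42 / N ≤ y^42 / N := by gcongr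
        _ = (N:ℝ) ^ (42/200 - 1:ℝ) := by
            rw [hy, ← Real.rpow_natCast, ← Real.rpow_mul hNp.le, Real.rpow_sub hNp, Real.rpow_one]; norm_num
        _ ≤ _ := Real.rpow_le_rpow_of_exponent_le hN1 (by norm_num)
    have h1 := hG M hM1 N hN hN0 hMy
    have h2 := hcL M hM1
    calc |A N - c| = |(A N - L M) + (L M - c)| := by ring_nf
      _ ≤ |A N - L M| + |L M - c| := abs_add_le _ _
      _ ≤ C1 * ((2 * CT + 1) ^ (1/8:ℝ) * (N:ℝ) ^ (-(1/320000):ℝ)) + C2 * (N:ℝ) ^ (-(1/320000):ℝ) +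
          C1 * ((2 * CT + 1) ^ (1/8:ℝ) * (N:ℝ) ^ (-(1/320000):ℝ)) := by linarith
      _ = K * (N:ℝ) ^ (-(1/320000):ℝ) := by rw [hK]; ring
  -- all N
  set F : ℕ → ℝ := fun N => |∑ n ∈ range N, ∏ j, e j n - c * N| with hF'
  refine ⟨c, K + ∑ N ∈ range (N1 + 1), F N, by
    have : 0 ≤ ∑ N ∈ range (N1 + 1), F N := Finset.sum_nonneg (fun _ _ => abs_nonneg _)
    linarith, fun N => ?_⟩
  have hs0 : 0 ≤ ∑ N ∈ range (N1 + 1), F N := Finset.sum_nonneg (fun _ _ => abs_nonneg _)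
  rcases Nat.eq_zero_or_pos N with rfl | hN0
  · simp only [range_zero, Finset.sum_empty, Nat.cast_zero, mul_zero, sub_zero, abs_zero]
    positivity
  have hN1' : (1:ℝ) ≤ N := by exact_mod_cast hN0
  have hNp : (0:ℝ) < N := by linarith
  have hNx : 1 ≤ (N:ℝ) ^ (1 - 1/320000 : ℝ) := Real.one_le_rpow hN1' (by norm_num)
  rcases lt_or_ge N N1 with h | h
  · have h1 : F N ≤ ∑ N ∈ range (N1 + 1), F N :=
      Finset.single_le_sum (f := F) (fun _ _ => abs_nonneg _) (Finset.mem_range.mpr (by omega))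
    calc F N ≤ ∑ N ∈ range (N1 + 1), F N := h1
      _ ≤ (K + ∑ N ∈ range (N1 + 1), F N) * 1 := by linarith
      _ ≤ _ := by gcongr
  · have h1 := hrate N h hN0
    have h2 : ∑ n ∈ range N, ∏ j, e j n - c * N = (A N - c) * N := by
      rw [hA]; unfold rm; field_simp
    rw [h2, abs_mul, abs_of_pos hNp]
    have h3 : (N:ℝ) ^ (-(1/320000):ℝ) * N = (N:ℝ) ^ (1 - 1/320000 : ℝ) := by
      rw [show (1 - 1/320000 : ℝ) = -(1/320000) + 1 by ring, Real.rpow_add hNp, Real.rpow_one]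
    calc |A N - c| * N ≤ K * (N:ℝ) ^ (-(1/320000):ℝ) * N := by gcongr
      _ = K * (N:ℝ) ^ (1 - 1/320000 : ℝ) := by rw [mul_assoc, h3]
      _ ≤ _ := by gcongr; linarith

end Pool.Agent.Y938.Pm
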