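import Mathlib
import Pool.Agent.Y938.Pm.D

/-!
# Mixed moments of the error terms along quadratic polynomials, with a power saving
-/

open Filter Topology Finset
open Pool.Agent.H383.AP Pool.Agent.H383.Gen Pool.Agent.H383.Gauss
open Pool.Agent.H425R3.JL (Tl_pow Data sum_Icc_range)
open Pool.Agent.H425R3.MM (LvStmt ui_of_lv)

namespace Pool.Agent.Y938.Pm

lemma fac_of {Ex : ℝ → ℝ} {af : ℕ → ℝ} {φ : ℝ} {κ : ℕ → ℕ} {X : ℕ → ℝ → ℝ} (hD : Data Ex af φ κ X) (hL : LvStmt Ex)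
    {a : ℕ} {b c : ℝ} (ha : 0 < a) (hP : ∀ n : ℕ, 0 < (a:ℝ) * (n:ℝ)^2 + b * n + c) :
    Fac af φ (κ a) (X a b) (fun n => Ex ((a:ℝ) * (n:ℝ)^2 + b * n + c)) where
  pos := hD.pos a ha
  l2 := hD.apq a b c ha hP
  mom := by
    have ha' : (0:ℝ) < a := by exact_mod_cast ha
    have h1 := hL a b c ha' hP (11/2 + 1/4) (by norm_num) (by norm_num) 1 one_pos
    obtain ⟨C, hC, N0, h⟩ := ui_of_lv (e := fun n : ℕ => Ex (a * (n:ℝ)^2 + b * n + c)) (p := 38/7) (q := 11/2 + 1/4)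
      (by norm_num) (by norm_num) (W := fun N m => (m:ℝ) ^ (max (1/2) ((11/2 + 1/4)/6) + 1 : ℝ) ≤ N) h1
    refine ⟨C + 1, by linarith, N0, fun N hN => ?_⟩
    have h2 := h N hN 0 (by
      rw [Nat.cast_zero, Real.zero_rpow (by positivity)]; exact Nat.cast_nonneg N) 1 le_rfl
    rw [Real.one_rpow, mul_one, Nat.zero_add, ← Finset.range_eq_Ico] at h2
    calc ∑ n ∈ range N, |Ex ((a:ℝ) * (n:ℝ)^2 + b * n + c)| ^ (38/7:ℝ)
        ≤ ∑ n ∈ range N, ((if 1 ≤ |Ex ((a:ℝ) * (n:ℝ)^2 + b * n + c)| then |Ex ((a:ℝ) * (n:ℝ)^2 + b * n + c)| ^ (38/7:ℝ) else 0) + 1) := by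
          apply Finset.sum_le_sum
          intro n _
          split_ifs with h3
          · linarith
          · rw [zero_add]
            exact Real.rpow_le_one (abs_nonneg _) (not_le.mp h3).le (by norm_num)
      _ = (∑ n ∈ (range N).filter (fun n : ℕ => 1 ≤ |Ex ((a:ℝ) * (n:ℝ)^2 + b * n + c)|), |Ex ((a:ℝ) * (n:ℝ)^2 + b * n + c)| ^ (38/7:ℝ)) + N := by
          rw [Finset.sum_add_distrib, Finset.sum_filter, Finset.sum_const, Finset.card_range, nsmul_eq_mul, mul_one]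
      _ ≤ C * N + N := by linarith
      _ = _ := by ring

/-- mixed moments of order at most five along quadratic polynomials -/
theorem quad_mixed {Ex : ℝ → ℝ} {af : ℕ → ℝ} {φ : ℝ} {κ : ℕ → ℕ} {X : ℕ → ℝ → ℝ} (hD : Data Ex af φ κ X) (hL : LvStmt Ex)
    {k : ℕ} (hk : k ≤ 5) (a : Fin k → ℕ) (b c : Fin k → ℝ) (ha : ∀ i, 0 < a i)
    (hP : ∀ i, ∀ n : ℕ, 1 ≤ n → 0 < (a i:ℝ) * (n:ℝ)^2 + b i * n + c i) :
    ∃ m C : ℝ, 0 < C ∧ ∀ N : ℕ, |∑ n ∈ Icc 1 N, ∏ i, Ex ((a i:ℝ) * (n:ℝ)^2 + b i * n + c i) - m * N| ≤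
      C * (N:ℝ) ^ (1 - 1/320000 : ℝ) := by
  set b' : Fin k → ℝ := fun i => 2 * a i + b i with hb'
  set c' : Fin k → ℝ := fun i => a i + b i + c i with hc'
  have hsh : ∀ i, ∀ n : ℕ, (a i:ℝ) * (n:ℝ)^2 + b' i * n + c' i = (a i:ℝ) * ((n+1 : ℕ):ℝ)^2 + b i * ((n+1 : ℕ):ℝ) + c i := by
    intro i n; simp only [hb', hc']; push_cast; ring
  have hP' : ∀ i, ∀ n : ℕ, 0 < (a i:ℝ) * (n:ℝ)^2 + b' i * n + c' i := by
    intro i n; rw [hsh]; exact hP i (n+1) (by omega)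
  obtain ⟨m, C, hC, h⟩ := main hD.bd hk (fun i => fac_of hD hL (ha i) (hP' i))
  refine ⟨m, C, hC, fun N => ?_⟩
  have h1 := h N
  simp only [hsh] at h1
  rw [sum_Icc_range]
  exact h1

/-- sums of powers -/
lemma sum_rpow {s : ℝ} (hs : 0 ≤ s) (N : ℕ) :
    |∑ n ∈ Icc 1 N, (n:ℝ) ^ s - (N:ℝ) ^ (s + 1) / (s + 1)| ≤ (N:ℝ) ^ s := by
  rcases Nat.eq_zero_or_pos N with rfl | hN
  · simp only [Finset.Icc_eq_empty (show ¬ (1 ≤ 0) by norm_num), Finset.sum_empty, Nat.cast_zero]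
    rw [Real.zero_rpow (by linarith : s + 1 ≠ 0), zero_div, sub_zero, abs_zero]
    positivity
  have hmono : MonotoneOn (fun x : ℝ => x ^ s) (Set.Icc ((0:ℕ):ℝ) N) := by
    intro x hx y _ hxy
    have : (0:ℝ) ≤ x := by have := hx.1; simpa using this
    exact Real.rpow_le_rpow this hxy hs
  have h1 := MonotoneOn.integral_le_sum_Ico (a := 0) (b := N) (Nat.zero_le N) hmono
  have h2 := MonotoneOn.sum_le_integral_Ico (a := 0) (b := N) (Nat.zero_le N) hmono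
  have hint : ∫ x in ((0:ℕ):ℝ)..(N:ℝ), x ^ s = (N:ℝ) ^ (s + 1) / (s + 1) := by
    rw [integral_rpow (Or.inl (by linarith)), Nat.cast_zero, Real.zero_rpow (by linarith : s + 1 ≠ 0), sub_zero]
  rw [hint] at h1 h2
  have h3 : ∑ n ∈ Icc 1 N, (n:ℝ) ^ s = ∑ n ∈ Ico 0 N, ((n+1 : ℕ):ℝ) ^ s := by
    rw [sum_Icc_range, Finset.range_eq_Ico]
  have h4 : ∑ n ∈ Ico 0 N, ((n+1 : ℕ):ℝ) ^ s ≤ ∑ n ∈ Ico 0 N, (n:ℝ) ^ s + (N:ℝ) ^ s := by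
    rw [← Finset.range_eq_Ico]
    have g1 := Finset.sum_range_succ' (fun n : ℕ => ((n : ℕ):ℝ) ^ s) N
    have g2 := Finset.sum_range_succ (fun n : ℕ => ((n : ℕ):ℝ) ^ s) N
    have g3 : 0 ≤ ((0:ℕ):ℝ) ^ s := by positivity
    linarith
  rw [h3, abs_le]
  constructor
  · have : 0 ≤ (N:ℝ) ^ s := by positivity
    linarith
  · linarith

/-- summation by parts -/
lemma abel {x : ℕ → ℝ} {c C s η : ℝ} (hs : 0 ≤ s) (hη : 0 ≤ η) (hC : 0 ≤ C)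
    (h : ∀ N : ℕ, |∑ n ∈ Icc 1 N, x n - c * N| ≤ C * (N:ℝ) ^ η) (N : ℕ) :
    |∑ n ∈ Icc 1 N, x n * (n:ℝ) ^ s - c / (s + 1) * (N:ℝ) ^ (s + 1)| ≤ (2 * C + |c|) * ((N:ℝ) ^ η * (N:ℝ) ^ s) := by
  set R : ℕ → ℝ := fun n => ∑ i ∈ Icc 1 n, x i - c * n with hR
  have hstep : ∀ n : ℕ, Icc 1 (n+1) = insert (n+1) (Icc 1 n) := by
    intro n; ext i; simp only [Finset.mem_insert, Finset.mem_Icc]; omega
  have hnot : ∀ n : ℕ, n + 1 ∉ Icc 1 n := by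
    intro n; simp
  have hRs : ∀ n, R (n+1) = R n + (x (n+1) - c) := by
    intro n
    simp only [hR]
    rw [hstep, Finset.sum_insert (hnot n)]
    push_cast; ring
  have key : ∀ n : ℕ, |∑ i ∈ Icc 1 n, (x i - c) * (i:ℝ) ^ s - R n * (n:ℝ) ^ s| ≤ C * ((n:ℝ) ^ η * (n:ℝ) ^ s) := by
    intro n
    induction n with
    | zero =>
      have : R 0 = 0 := by simp [hR]
      rw [this]
      simp only [Finset.Icc_eq_empty (show ¬ (1 ≤ 0) by norm_num), Finset.sum_empty, zero_mul, sub_zero, abs_zero]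
      positivity
    | succ n ih =>
      have hn1 : (n:ℝ) ≤ ((n+1 : ℕ):ℝ) := by push_cast; linarith
      have hmon : (n:ℝ) ^ s ≤ ((n+1 : ℕ):ℝ) ^ s := Real.rpow_le_rpow (Nat.cast_nonneg n) hn1 hs
      have hmon2 : (n:ℝ) ^ η ≤ ((n+1 : ℕ):ℝ) ^ η := Real.rpow_le_rpow (Nat.cast_nonneg n) hn1 hη
      have e1 : ∑ i ∈ Icc 1 (n+1), (x i - c) * (i:ℝ) ^ s - R (n+1) * ((n+1 : ℕ):ℝ) ^ s =
          (∑ i ∈ Icc 1 n, (x i - c) * (i:ℝ) ^ s - R n * (n:ℝ) ^ s) - R n * (((n+1 : ℕ):ℝ) ^ s - (n:ℝ) ^ s) := by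
        rw [hstep, Finset.sum_insert (hnot n), hRs]
        ring
      rw [e1]
      calc |(∑ i ∈ Icc 1 n, (x i - c) * (i:ℝ) ^ s - R n * (n:ℝ) ^ s) - R n * (((n+1 : ℕ):ℝ) ^ s - (n:ℝ) ^ s)|
          ≤ |∑ i ∈ Icc 1 n, (x i - c) * (i:ℝ) ^ s - R n * (n:ℝ) ^ s| + |R n * (((n+1 : ℕ):ℝ) ^ s - (n:ℝ) ^ s)| := abs_sub _ _
        _ ≤ C * ((n:ℝ) ^ η * (n:ℝ) ^ s) + C * (n:ℝ) ^ η * (((n+1 : ℕ):ℝ) ^ s - (n:ℝ) ^ s) := by
            apply add_le_add ih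
            rw [abs_mul, abs_of_nonneg (sub_nonneg.mpr hmon)]
            exact mul_le_mul_of_nonneg_right (h n) (sub_nonneg.mpr hmon)
        _ = C * ((n:ℝ) ^ η * ((n+1 : ℕ):ℝ) ^ s) := by ring
        _ ≤ C * (((n+1 : ℕ):ℝ) ^ η * ((n+1 : ℕ):ℝ) ^ s) := by gcongr
  have hRN : |R N * (N:ℝ) ^ s| ≤ C * ((N:ℝ) ^ η * (N:ℝ) ^ s) := by
    rw [abs_mul, abs_of_nonneg (by positivity : 0 ≤ (N:ℝ) ^ s), ← mul_assoc]
    exact mul_le_mul_of_nonneg_right (h N) (by positivity)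
  have hsum := sum_rpow hs N
  have hNN : (N:ℝ) ^ s ≤ (N:ℝ) ^ η * (N:ℝ) ^ s ∨ N = 0 := by
    rcases Nat.eq_zero_or_pos N with h0 | h0
    · right; exact h0
    · left
      have h1 : 1 ≤ (N:ℝ) ^ η := Real.one_le_rpow (by exact_mod_cast h0) hη
      have h2 : 0 ≤ (N:ℝ) ^ s := by positivity
      nlinarith
  rcases hNN with hNN | rfl
  · have e2 : ∑ n ∈ Icc 1 N, x n * (n:ℝ) ^ s - c / (s + 1) * (N:ℝ) ^ (s + 1) =
        (∑ i ∈ Icc 1 N, (x i - c) * (i:ℝ) ^ s - R N * (N:ℝ) ^ s) + R N * (N:ℝ) ^ s +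
          c * (∑ n ∈ Icc 1 N, (n:ℝ) ^ s - (N:ℝ) ^ (s + 1) / (s + 1)) := by
      have : ∑ i ∈ Icc 1 N, (x i - c) * (i:ℝ) ^ s = ∑ i ∈ Icc 1 N, x i * (i:ℝ) ^ s - c * ∑ i ∈ Icc 1 N, (i:ℝ) ^ s := by
        rw [Finset.mul_sum, ← Finset.sum_sub_distrib]
        apply Finset.sum_congr rfl
        intro i _; ring
      rw [this]; ring
    rw [e2]
    have h3 : |c * (∑ n ∈ Icc 1 N, (n:ℝ) ^ s - (N:ℝ) ^ (s + 1) / (s + 1))| ≤ |c| * ((N:ℝ) ^ η * (N:ℝ) ^ s) := by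
      rw [abs_mul]
      exact mul_le_mul_of_nonneg_left (hsum.trans hNN) (abs_nonneg c)
    refine (abs_add_le _ _).trans ?_
    have h4 := abs_add_le (∑ i ∈ Icc 1 N, (x i - c) * (i:ℝ) ^ s - R N * (N:ℝ) ^ s) (R N * (N:ℝ) ^ s)
    have h5 := key N
    linarith
  · simp only [Finset.Icc_eq_empty (show ¬ (1 ≤ 0) by norm_num), Finset.sum_empty, Nat.cast_zero]
    rw [Real.zero_rpow (by linarith : s + 1 ≠ 0), mul_zero, sub_zero, abs_zero]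
    positivity

end Pool.Agent.Y938.Pm
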