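import Mathlib
import Pool.Agent.Y938.Pm.E
import Pool.Agent.H383.Full3

/-!
# Moments of the error term of the circle problem at integer radii
-/

open Filter Topology Finset MeasureTheory
open Pool.Agent.H383.AP Pool.Agent.H383.Gen Pool.Agent.H383.Gauss
open Pool.Agent.H425R3.JL (Tl_pow Data sum_Icc_range Ec circ_data)
open Pool.Agent.H425R3.MM (LvStmt circ_Lv)

namespace Pool.Agent.Y938.Pm

lemma tendsto_of_power {x : ℕ → ℝ} {m C η : ℝ} (hη : η < 1) (h : ∀ N : ℕ, |∑ n ∈ Icc 1 N, x n - m * N| ≤ C * (N:ℝ) ^ η) :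
    Tendsto (fun N : ℕ => (∑ n ∈ Icc 1 N, x n) / N) atTop (𝓝 m) := by
  rw [tendsto_iff_dist_tendsto_zero]
  have h1 : Tendsto (fun N : ℕ => C * (N:ℝ) ^ (-(1 - η))) atTop (𝓝 0) := by
    have := ((tendsto_rpow_neg_atTop (by linarith : (0:ℝ) < 1 - η)).comp tendsto_natCast_atTop_atTop).const_mul C
    rw [mul_zero] at this
    exact this
  refine squeeze_zero' (Eventually.of_forall (fun _ => dist_nonneg)) ?_ h1
  filter_upwards [eventually_gt_atTop 0] with N hN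
  have hN0 : (0:ℝ) < N := by exact_mod_cast hN
  rw [Real.dist_eq]
  have e1 : (∑ n ∈ Icc 1 N, x n) / N - m = (∑ n ∈ Icc 1 N, x n - m * N) / N := by field_simp
  rw [e1, abs_div, abs_of_pos hN0, div_le_iff₀ hN0]
  refine (h N).trans (le_of_eq ?_)
  rw [mul_assoc]
  congr 1
  nth_rewrite 3 [← Real.rpow_one (N:ℝ)]
  rw [← Real.rpow_add hN0]
  congr 1; ring

/-- the number of representations -/
noncomputable def rr (m : ℕ) : ℕ := Nat.card {p : ℤ × ℤ // p.1 ^ 2 + p.2 ^ 2 = (m : ℤ)}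

lemma one_sq_int (m : ℕ) : (1 ≤ m ∧ ∃ k : ℤ, √((1:ℝ) * m) = k) ↔ ∃ j : ℕ, 1 ≤ j ∧ m = j^2 := by
  constructor
  · rintro ⟨h1, k, hk⟩
    rw [one_mul] at hk
    have hk0 : (0:ℝ) ≤ (k:ℝ) := by rw [← hk]; exact Real.sqrt_nonneg _
    have hk0' : 0 ≤ k := by exact_mod_cast hk0
    lift k to ℕ using hk0'
    have h2 : (m:ℝ) = (k:ℝ)^2 := by
      have := Real.sq_sqrt (Nat.cast_nonneg (α := ℝ) m)
      rw [hk] at this
      rw [← this]; push_cast; ring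
    have h3 : m = k^2 := by exact_mod_cast h2
    refine ⟨k, ?_, h3⟩
    by_contra h
    have : k = 0 := by omega
    rw [this] at h3; simp at h3; omega
  · rintro ⟨j, hj, rfl⟩
    refine ⟨Nat.one_le_pow _ _ hj, j, ?_⟩
    rw [one_mul]; push_cast
    exact Real.sqrt_sq (Nat.cast_nonneg j)

open Classical in
/-- the resonant series at integer radii -/
lemma reson : (Summable (fun m : ℕ => if 1 ≤ m ∧ ∃ k : ℤ, √((1:ℝ) * m) = k then
          (Nat.card {p : ℤ × ℤ // p.1 ^ 2 + p.2 ^ 2 = (m : ℤ)} : ℝ) / Real.pi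
            * (m : ℝ) ^ (-(3 / 4) : ℝ) * Real.cos (Real.pi * 2 * √(m / 1) - 3 * Real.pi / 4)
        else 0)) →
    Summable (fun j : ℕ => (rr (j^2) : ℝ) / (j:ℝ) ^ (3/2:ℝ)) ∧
    (∑' m : ℕ, if 1 ≤ m ∧ ∃ k : ℤ, √((1:ℝ) * m) = k then
          (Nat.card {p : ℤ × ℤ // p.1 ^ 2 + p.2 ^ 2 = (m : ℤ)} : ℝ) / Real.pi
            * (m : ℝ) ^ (-(3 / 4) : ℝ) * Real.cos (Real.pi * 2 * √(m / 1) - 3 * Real.pi / 4)
        else 0) = -(√2 / (2 * Real.pi)) * ∑' j : ℕ, (rr (j^2) : ℝ) / (j:ℝ) ^ (3/2:ℝ) := by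
  set f : ℕ → ℝ := fun m : ℕ => if 1 ≤ m ∧ ∃ k : ℤ, √((1:ℝ) * m) = k then
          (Nat.card {p : ℤ × ℤ // p.1 ^ 2 + p.2 ^ 2 = (m : ℤ)} : ℝ) / Real.pi
            * (m : ℝ) ^ (-(3 / 4) : ℝ) * Real.cos (Real.pi * 2 * √(m / 1) - 3 * Real.pi / 4)
        else 0 with hf
  intro hs
  have hinj : Function.Injective (fun j : ℕ => j^2) := fun i j h => by
    have : i^2 = j^2 := h
    exact Nat.pow_left_injective (n := 2) (by norm_num) this
  have hval : ∀ j : ℕ, f (j^2) = -(√2 / (2 * Real.pi)) * ((rr (j^2) : ℝ) / (j:ℝ) ^ (3/2:ℝ)) := by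
    intro j
    rcases Nat.eq_zero_or_pos j with rfl | hj
    · simp only [hf]
      rw [if_neg (by norm_num), Nat.cast_zero, Real.zero_rpow (by norm_num), div_zero, mul_zero]
    · have hj0 : (0:ℝ) < j := by exact_mod_cast hj
      simp only [hf]
      rw [if_pos ((one_sq_int (j^2)).mpr ⟨j, hj, rfl⟩)]
      have e1 : (((j^2 : ℕ)):ℝ) ^ (-(3/4):ℝ) = ((j:ℝ) ^ (3/2:ℝ))⁻¹ := by
        push_cast
        rw [← Real.rpow_natCast, ← Real.rpow_mul hj0.le, ← Real.rpow_neg hj0.le]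
        norm_num
      have e2 : √((((j^2 : ℕ)):ℝ) / 1) = j := by
        rw [div_one]; push_cast
        exact Real.sqrt_sq hj0.le
      have e3 : Real.cos (Real.pi * 2 * (j:ℝ) - 3 * Real.pi / 4) = -(√2 / 2) := by
        have : Real.pi * 2 * (j:ℝ) - 3 * Real.pi / 4 = -(3 * Real.pi / 4) + j * (2 * Real.pi) := by ring
        rw [this, Real.cos_add_nat_mul_two_pi, Real.cos_neg, show 3 * Real.pi / 4 = Real.pi - Real.pi / 4 by ring,
          Real.cos_pi_sub, Real.cos_pi_div_four]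
      rw [e1, e2, e3]
      unfold rr
      have hpi := Real.pi_pos
      field_simp
  have hsupp : Function.support f ⊆ Set.range (fun j : ℕ => j^2) := by
    intro m hm
    by_contra hcon
    apply hm
    simp only [hf]
    rw [if_neg]
    intro h
    obtain ⟨j, _, rfl⟩ := (one_sq_int m).mp h
    exact hcon ⟨j, rfl⟩
  have h1 : ∑' j : ℕ, f (j^2) = ∑' m, f m := hinj.tsum_eq hsupp
  have h2 : Summable (fun j : ℕ => f (j^2)) := hs.comp_injective hinj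
  have hc : -(√2 / (2 * Real.pi)) ≠ 0 := by
    have := Real.pi_pos
    have h2 : 0 < √2 := by positivity
    have : 0 < √2 / (2 * Real.pi) := by positivity
    linarith
  constructor
  · have h3 : Summable (fun j : ℕ => -(√2 / (2 * Real.pi)) * ((rr (j^2) : ℝ) / (j:ℝ) ^ (3/2:ℝ))) := by
      refine h2.congr (fun j => ?_)
      exact hval j
    exact (summable_mul_left_iff hc).mp h3
  · rw [← h1, ← tsum_mul_left]
    exact tsum_congr hval

/-- **the moments at integer radii** -/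
theorem circ_mom : ∃ μ : ProbabilityMeasure ℝ,
    (∀ f : ℝ → ℝ, Continuous f → (∃ B : ℝ, ∀ x, |f x| ≤ B) →
      Tendsto (fun N : ℕ => (∑ n ∈ Icc 1 N, f (Ec ((n:ℝ)^2))) / N) atTop (𝓝 (∫ x, f x ∂(μ : Measure ℝ)))) ∧
    (∀ k : ℕ, k ≤ 5 → Integrable (fun x : ℝ => x ^ k) (μ : Measure ℝ) ∧
      ∃ C : ℝ, ∀ N : ℕ, |∑ n ∈ Icc 1 N, (Ec ((n:ℝ)^2)) ^ k - (∫ x, x ^ k ∂(μ : Measure ℝ)) * N| ≤ C * (N:ℝ) ^ (1 - 1/320000 : ℝ)) ∧
    Summable (fun j : ℕ => (rr (j^2) : ℝ) / (j:ℝ) ^ (3/2:ℝ)) ∧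
    ∫ x, x ∂(μ : Measure ℝ) = -(√2 / (2 * Real.pi)) * ∑' j : ℕ, (rr (j^2) : ℝ) / (j:ℝ) ^ (3/2:ℝ) := by
  have hP : ∀ n : ℕ, (0:ℝ) < (1:ℝ) * (n:ℝ)^2 + 2 * n + 1 := fun n => by positivity
  have hsh : ∀ n : ℕ, (1:ℝ) * (n:ℝ)^2 + 2 * n + 1 = (((n+1 : ℕ)):ℝ)^2 := by intro n; push_cast; ring
  obtain ⟨μ, g, -, -, -, -, hmom, -⟩ := Pool.Agent.H425R3.MM.final_mom Pool.Agent.H425R3.JD.circ_dataW circ_Lv
    (k := 1) (a := 1) one_pos (fun _ => 2) (fun _ => 1) (fun i j _ => Subsingleton.elim i j) (fun _ n => hP n)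
  have hmeas : Measurable (fun x : Fin 1 → ℝ => x 0) := measurable_pi_apply 0
  haveI : IsProbabilityMeasure ((μ : Measure (Fin 1 → ℝ)).map (fun x => x 0)) :=
    Measure.isProbabilityMeasure_map hmeas.aemeasurable
  set ν : ProbabilityMeasure ℝ := ⟨(μ : Measure (Fin 1 → ℝ)).map (fun x => x 0), inferInstance⟩ with hν
  have hint : ∀ f : ℝ → ℝ, Continuous f → ∫ x, f x ∂(ν : Measure ℝ) = ∫ x, f (x 0) ∂(μ : Measure (Fin 1 → ℝ)) := by
    intro f hf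
    change ∫ x, f x ∂((μ : Measure (Fin 1 → ℝ)).map (fun x => x 0)) = _
    rw [integral_map hmeas.aemeasurable hf.aestronglyMeasurable]
  -- convergence for functions of growth less than six
  have hconv : ∀ p : ℝ, 0 < p → p < 6 → ∀ f : ℝ → ℝ, Continuous f → (∃ B : ℝ, ∀ x, |f x| ≤ B * (1 + |x| ^ p)) →
      Integrable f (ν : Measure ℝ) ∧
      Tendsto (fun N : ℕ => (∑ n ∈ Icc 1 N, f (Ec ((n:ℝ)^2))) / N) atTop (𝓝 (∫ x, f x ∂(ν : Measure ℝ))) := by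
    intro p hp0 hp6 f hf hB
    obtain ⟨B, hB⟩ := hB
    obtain ⟨h1, h2⟩ := hmom p hp0 hp6 (fun x => f (x 0)) (hf.comp (continuous_apply 0)) ⟨B, fun x => by
      rw [Fin.sum_univ_one]; exact hB (x 0)⟩
    constructor
    · change Integrable f ((μ : Measure (Fin 1 → ℝ)).map (fun x => x 0))
      rw [integrable_map_measure hf.aestronglyMeasurable hmeas.aemeasurable]
      exact h1
    · rw [hint f hf, Metric.tendsto_atTop]
      intro η hη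
      obtain ⟨N0, h3⟩ := h2 1 one_pos (η/2) (by positivity)
      refine ⟨N0, fun N hN => ?_⟩
      have h4 := h3 N hN 0 (by
        rw [Nat.cast_zero, Real.zero_rpow (by positivity)]; exact Nat.cast_nonneg N)
      simp only [hsh] at h4
      rw [Nat.zero_add, ← Finset.range_eq_Ico] at h4
      rw [Real.dist_eq, sum_Icc_range]
      linarith
  refine ⟨ν, ?_, ?_, ?_⟩
  · intro f hf hB
    obtain ⟨B, hB⟩ := hB
    refine (hconv 1 one_pos (by norm_num) f hf ⟨|B|, fun x => ?_⟩).2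
    have h1 := hB x
    have h2 := le_abs_self B
    have h3 : 0 ≤ |x| ^ (1:ℝ) := by positivity
    have h4 := abs_nonneg B
    nlinarith
  · intro k hk
    have hgr : ∀ x : ℝ, |x ^ k| ≤ 1 * (1 + |x| ^ (5:ℝ)) := by
      intro x
      rw [abs_pow, one_mul]
      rcases le_total |x| 1 with h | h
      · have h1 : |x| ^ k ≤ 1 := pow_le_one₀ (abs_nonneg _) h
        have h2 : 0 ≤ |x| ^ (5:ℝ) := by positivity
        linarith
      · have h1 : |x| ^ k ≤ |x| ^ 5 := pow_le_pow_right₀ h hk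
        have h2 : |x| ^ (5:ℝ) = |x| ^ 5 := by
          rw [show (5:ℝ) = ((5:ℕ):ℝ) by norm_num, Real.rpow_natCast]
        rw [h2]
        exact h1.trans (by linarith)
    obtain ⟨h1, h2⟩ := hconv 5 (by norm_num) (by norm_num) (fun x => x ^ k) (by fun_prop) ⟨1, hgr⟩
    refine ⟨h1, ?_⟩
    obtain ⟨m, C, hC, h3⟩ := quad_mixed circ_data circ_Lv hk (fun _ => 1) (fun _ => 0) (fun _ => 0) (fun _ => one_pos)
      (fun _ n hn => by
        have : (1:ℝ) ≤ n := by exact_mod_cast hn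
        push_cast; nlinarith)
    have e1 : ∀ n : ℕ, ∏ _i : Fin k, Ec (((1:ℕ):ℝ) * (n:ℝ)^2 + 0 * n + 0) = (Ec ((n:ℝ)^2)) ^ k := by
      intro n
      rw [Finset.prod_const, Finset.card_univ, Fintype.card_fin]
      congr 2
      push_cast; ring
    simp only [e1] at h3
    have h4 := tendsto_of_power (by norm_num) h3
    have h5 : m = ∫ x, x ^ k ∂(ν : Measure ℝ) := tendsto_nhds_unique h4 h2
    exact ⟨C, fun N => by rw [← h5]; exact h3 N⟩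
  · obtain ⟨μ', -, -, -, -, -, -, -, -, hmean, hsum, htsum⟩ := Pool.Agent.H383.Circ.distr3 (a := 1) (b := 2) (c := 1) one_pos hP
    obtain ⟨g1, g2⟩ := reson hsum
    refine ⟨g1, ?_⟩
    rw [← g2, ← htsum]
    have h1 := (hconv 1 one_pos (by norm_num) (fun x => x) continuous_id ⟨1, fun x => by
      rw [Real.rpow_one, one_mul]; linarith⟩).2
    refine tendsto_nhds_unique h1 ?_
    rw [Metric.tendsto_atTop]
    intro η hη
    obtain ⟨N0, h3⟩ := hmean 1 one_pos (η/2) (by positivity)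
    refine ⟨N0, fun N hN => ?_⟩
    have h4 := h3 N hN 0 (by
      rw [Nat.cast_zero, Real.zero_rpow (by norm_num)]; exact Nat.cast_nonneg N)
    rw [Nat.zero_add, ← Finset.range_eq_Ico] at h4
    rw [Real.dist_eq, sum_Icc_range]
    have e2 : ∀ n : ℕ, Ec ((((n+1 : ℕ)):ℝ)^2) = Pool.Agent.H383.Circ.Cx (1 * (n:ℝ) ^ 2 + 2 * n + 1) /
        (1 * (n:ℝ) ^ 2 + 2 * n + 1) ^ (1 / 4 : ℝ) := by
      intro n
      rw [hsh]; rfl
    simp only [e2]
    linarith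

/-- the unnormalised moments -/
theorem circ_mom_un : ∃ μ : ProbabilityMeasure ℝ,
    (∀ f : ℝ → ℝ, Continuous f → (∃ B : ℝ, ∀ x, |f x| ≤ B) →
      Tendsto (fun N : ℕ => (∑ n ∈ Icc 1 N, f (Ec ((n:ℝ)^2))) / N) atTop (𝓝 (∫ x, f x ∂(μ : Measure ℝ)))) ∧
    (∀ k : ℕ, k ≤ 5 → Integrable (fun x : ℝ => x ^ k) (μ : Measure ℝ) ∧
      ∃ C : ℝ, ∀ N : ℕ, |∑ n ∈ Icc 1 N, ((Nat.card {p : ℤ × ℤ // (p.1 : ℝ) ^ 2 + (p.2 : ℝ) ^ 2 ≤ (n:ℝ)^2} : ℝ) - Real.pi * (n:ℝ)^2) ^ k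
          - (∫ x, x ^ k ∂(μ : Measure ℝ)) / (1 + k / 2) * (N:ℝ) ^ (1 + k / 2 : ℝ)| ≤ C * (N:ℝ) ^ (1 + k / 2 - 1/320000 : ℝ)) ∧
    Summable (fun j : ℕ => (rr (j^2) : ℝ) / (j:ℝ) ^ (3/2:ℝ)) ∧
    ∫ x, x ∂(μ : Measure ℝ) = -(√2 / (2 * Real.pi)) * ∑' j : ℕ, (rr (j^2) : ℝ) / (j:ℝ) ^ (3/2:ℝ) := by
  obtain ⟨μ, h1, h2, h3, h4⟩ := circ_mom
  refine ⟨μ, h1, fun k hk => ⟨(h2 k hk).1, ?_⟩, h3, h4⟩
  obtain ⟨C, hC⟩ := (h2 k hk).2
  have hC0 : 0 ≤ C := by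
    have := (abs_nonneg _).trans (hC 1)
    rw [Nat.cast_one, Real.one_rpow] at this
    linarith
  refine ⟨2 * C + |∫ x, x ^ k ∂(μ : Measure ℝ)|, fun N => ?_⟩
  have key := abel (s := (k:ℝ)/2) (by positivity) (by norm_num : (0:ℝ) ≤ 1 - 1/320000) hC0 hC N
  have e1 : ∀ n ∈ Icc 1 N, (Ec ((n:ℝ)^2)) ^ k * (n:ℝ) ^ ((k:ℝ)/2) =
      ((Nat.card {p : ℤ × ℤ // (p.1 : ℝ) ^ 2 + (p.2 : ℝ) ^ 2 ≤ (n:ℝ)^2} : ℝ) - Real.pi * (n:ℝ)^2) ^ k := by
    intro n hn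
    rw [Finset.mem_Icc] at hn
    have hn0 : (0:ℝ) < n := by exact_mod_cast hn.1
    have e2 : ((n:ℝ)^2) ^ (1/4:ℝ) = (n:ℝ) ^ (1/2:ℝ) := by
      rw [← Real.rpow_natCast, ← Real.rpow_mul hn0.le]; norm_num
    have e3 : (n:ℝ) ^ ((k:ℝ)/2) = ((n:ℝ) ^ (1/2:ℝ)) ^ k := by
      rw [← Real.rpow_natCast, ← Real.rpow_mul hn0.le]
      congr 1; ring
    unfold Ec
    rw [e2, e3, ← mul_pow, div_mul_cancel₀]
    positivity
  rw [Finset.sum_congr rfl e1] at key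
  have e4 : (k:ℝ)/2 + 1 = 1 + k/2 := by ring
  rw [e4] at key
  refine key.trans ?_
  rcases Nat.eq_zero_or_pos N with rfl | hN
  · rw [Nat.cast_zero, Real.zero_rpow (by norm_num : (1 - 1/320000 : ℝ) ≠ 0), zero_mul, mul_zero]
    positivity
  · have hN0 : (0:ℝ) < N := by exact_mod_cast hN
    rw [← Real.rpow_add hN0]
    apply le_of_eq
    congr 2; ring

end Pool.Agent.Y938.Pm
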